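import Pool.Agent.TH601.EX.Pot

/-!
The two halves of the comparison: an upper bound for hitting probabilities by the energy of a
test function, and the energy of the equilibrium potential bounded by hitting probabilities.
-/

open Filter Topology

set_option linter.unusedSectionVars false
set_option linter.unusedSimpArgs false

namespace Pool.Agent.TH601.EX

variable {X : Type*} [TopologicalSpace X] [CompactSpace X]

theorem energy_nonneg {m : C(X, ℝ) →ₗ[ℝ] ℝ} (hm : IsState m) {G : C(X, ℝ) →L[ℝ] C(X, ℝ)}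
    (hG : IsGen m G) (f : C(X, ℝ)) : 0 ≤ -(m (f * G f)) := by
  have h1 := energy_le hm hG one_pos f
  have h2 := (hG.markov hm zero_le_one).inner_le hm f
  linarith

theorem hit_le {m : C(X, ℝ) →ₗ[ℝ] ℝ} (hm : IsState m) {G : C(X, ℝ) →L[ℝ] C(X, ℝ)}
    (hG : IsGen m G) {e : C(X, ℝ)} (he : IsIdem e) {h : ℝ} (hh : 0 < h) (n : ℕ)
    {f : C(X, ℝ)} (hf : e * f = e) :
    1 - m (avoid (sg G h) e n) ≤ Real.exp (n * h) * (m (f * f) + -(m (f * G f))) := by
  set Q := sg G h with hQdef
  have hQ : IsMarkov m Q := hG.markov hm hh.le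
  set α : ℝ := Real.exp (-h) with hα
  have hα0 : 0 < α := Real.exp_pos _
  have hα1 : α < 1 := by
    rw [hα, Real.exp_lt_one_iff]
    linarith
  obtain ⟨u, -, hu0, hu1, hu⟩ := exists_pot hQ he hα0 hα1 Set.univ isClosed_univ trivial
    (fun _ _ => trivial)
  have h1 := avoid_le_pot hQ he hα0 hα1 hu0 hu n
  have h2 := hm.mono h1
  rw [map_smul, map_sub, hm.one, smul_eq_mul] at h2
  have h3 := pot_le_energy hm hQ he hα0 hα1 hu hf
  rw [mul_sub, map_sub, mul_smul_comm, map_smul, smul_eq_mul] at h3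
  have h4 := energy_le hm hG hh f
  have hE := energy_nonneg hm hG f
  set E : ℝ := -(m (f * G f)) with hEdef
  -- `α h ≤ 1 - α`
  have h5 : α * h ≤ 1 - α := by
    have h6 : h + 1 ≤ Real.exp h := Real.add_one_le_exp h
    have h7 : α * Real.exp h = 1 := by
      rw [hα, ← Real.exp_add]
      simp
    nlinarith
  have h6 : (1 - α) * m u ≤ (1 - α) * (m (f * f) + E) := by
    have h7 : α * (m (f * f) - m (f * Q f)) ≤ α * (h * E) := mul_le_mul_of_nonneg_left h4 hα0.le
    have h8 : α * h * E ≤ (1 - α) * E := mul_le_mul_of_nonneg_right h5 hE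
    nlinarith
  have h7 : m u ≤ m (f * f) + E := le_of_mul_le_mul_left h6 (by linarith)
  have h8 : Real.exp (n * h) * α ^ n = 1 := by
    rw [hα, ← Real.exp_nat_mul, ← Real.exp_add]
    have : (n : ℝ) * h + n * -h = 0 := by ring
    rw [this, Real.exp_zero]
  have h9 : 0 < Real.exp (n * h) := Real.exp_pos _
  calc 1 - m (avoid Q e n) = Real.exp (n * h) * (α ^ n * (1 - m (avoid Q e n))) := by
        rw [← mul_assoc, h8, one_mul]
    _ ≤ Real.exp (n * h) * m u := mul_le_mul_of_nonneg_left h2 h9.le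
    _ ≤ _ := mul_le_mul_of_nonneg_left h7 h9.le

theorem exists_test {m : C(X, ℝ) →ₗ[ℝ] ℝ} (hm : IsState m) {G : C(X, ℝ) →L[ℝ] C(X, ℝ)}
    (hG : IsGen m G) {e : C(X, ℝ)} (he : IsIdem e) {h : ℝ} (hh : 0 < h) (hh2 : h ≤ 1 / 2) (n : ℕ)
    {ε : ℝ} (hexp : ∀ f, ‖sg G h f - f - h • G f‖ ≤ ε * h * ‖f‖) (hε : 0 ≤ ε)
    (S : Submodule ℝ C(X, ℝ)) (hS : IsClosed (S : Set C(X, ℝ))) (heS : e ∈ S)
    (hmulS : ∀ f ∈ S, (1 - e) * f ∈ S) (hGS : ∀ f ∈ S, G f ∈ S) {K : ℝ} (hK : 0 ≤ K) :
    ∃ f ∈ S, e * f = e ∧ m (f * f) + K * (-(m (f * G f))) ≤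
      (1 + 2 * K) * ((1 - m (avoid (sg G h) e n)) + Real.exp (-(n * h)) + ε) := by
  set Q := sg G h with hQdef
  have hQ : IsMarkov m Q := hG.markov hm hh.le
  set α : ℝ := Real.exp (-h) with hα
  have hα0 : 0 < α := Real.exp_pos _
  have hα1 : α < 1 := by
    rw [hα, Real.exp_lt_one_iff]
    linarith
  have hα2 : 1 - h ≤ α := by
    have := Real.add_one_le_exp (-h)
    rw [hα]
    linarith
  obtain ⟨u, huS, hu0, hu1, hu⟩ := exists_pot hQ he hα0 hα1 (S : Set C(X, ℝ)) hS S.zero_mem (by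
    intro f hf
    exact S.add_mem heS (S.smul_mem _ (hmulS _ (sg_mem G S hS hGS h hf))))
  refine ⟨u, huS, pot_mul he hu, ?_⟩
  have h1 := hm.mono (pot_le_avoid hQ he hα0 hα1 hu1 hu n)
  rw [map_add, map_smul, map_sub, hm.one, smul_eq_mul, mul_one] at h1
  have hαn : α ^ n = Real.exp (-(n * h)) := by
    rw [hα, ← Real.exp_nat_mul]
    congr 1
    ring
  rw [hαn] at h1
  have h2 : m (u * u) ≤ m u := by
    apply hm.mono
    intro x
    have h3 := nonneg_apply hu0 x
    have h4 := le_apply hu1 x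
    have h7 : (1 : C(X, ℝ)) x = 1 := rfl
    rw [h7] at h4
    show u x * u x ≤ u x
    nlinarith
  have hu_norm : ‖u‖ ≤ 1 := by
    rw [ContinuousMap.norm_le _ zero_le_one]
    intro x
    have h3 := nonneg_apply hu0 x
    have h4 := le_apply hu1 x
    have h7 : (1 : C(X, ℝ)) x = 1 := rfl
    rw [h7] at h4
    show |u x| ≤ 1
    rw [abs_le]
    constructor <;> linarith
  have h3 := pot_energy (m := m) hQ he hu
  rw [mul_sub, map_sub, mul_smul_comm, map_smul, smul_eq_mul] at h3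
  have hE := energy_nonneg hm hG u
  set E : ℝ := -(m (u * G u)) with hEdef
  have h4 : m (u * Q u) ≤ m (u * u) - h * E + ε * h := by
    have h5 : u * Q u = u * u + h • (u * G u) + u * (Q u - u - h • G u) := by
      ext x
      simp
      ring
    have h6 : |m (u * (Q u - u - h • G u))| ≤ ε * h := by
      refine (hm.abs_le _).trans ((norm_mul_le _ _).trans ?_)
      calc ‖u‖ * ‖Q u - u - h • G u‖ ≤ 1 * (ε * h * 1) := by
            refine mul_le_mul hu_norm ?_ (norm_nonneg _) zero_le_one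
            exact (hexp u).trans (mul_le_mul_of_nonneg_left hu_norm (by positivity))
        _ = ε * h := by ring
    have h7 := le_abs_self (m (u * (Q u - u - h • G u)))
    have h8 : m (u * Q u) = m (u * u) + h * m (u * G u) + m (u * (Q u - u - h • G u)) := by
      calc m (u * Q u) = m (u * u + h • (u * G u) + u * (Q u - u - h • G u)) := by rw [← h5]
        _ = _ := by rw [map_add, map_add, map_smul, smul_eq_mul]
    rw [h8, hEdef]
    linarith
  have hmu : 0 ≤ m u := hm.pos _ hu0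
  have huu : 0 ≤ m (u * u) := hm.pos _ (sq_nonneg' u)
  -- `α h E ≤ h m u + ε h`
  have h5 : α * E ≤ m u + ε := by
    have h6 : α * m (u * Q u) ≤ α * (m (u * u) - h * E + ε * h) :=
      mul_le_mul_of_nonneg_left h4 hα0.le
    have h7 : (1 - α) * m u ≤ h * m u := mul_le_mul_of_nonneg_right (by linarith) hmu
    have h8 : 0 ≤ (1 - α) * m (u * u) := mul_nonneg (by linarith) huu
    have h9 : α * (ε * h) ≤ 1 * (ε * h) := mul_le_mul_of_nonneg_right hα1.le (by positivity)
    have h10 : h * (α * E) ≤ h * (m u + ε) := by nlinarith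
    exact le_of_mul_le_mul_left h10 hh
  have h6 : E ≤ 2 * (m u + ε) := by nlinarith
  have h7 : K * E ≤ K * (2 * (m u + ε)) := mul_le_mul_of_nonneg_left h6 hK
  have h8 : m u + ε ≤ (1 - m (avoid Q e n)) + Real.exp (-(n * h)) + ε := by linarith
  have h9 : (1 + 2 * K) * (m u + ε) ≤
      (1 + 2 * K) * ((1 - m (avoid Q e n)) + Real.exp (-(n * h)) + ε) :=
    mul_le_mul_of_nonneg_left h8 (by positivity)
  nlinarith

end Pool.Agent.TH601.EX
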