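import Mathlib

/-!
A capacitability lemma: an analytic set of positive capacity contains a compact set all of whose
open neighbourhoods have capacity bounded below.
-/

open MeasureTheory Filter Topology

namespace Pool.Agent.TH601.EX

/-- the set of sequences bounded by `σ` in the first `k` coordinates -/
def box (σ : ℕ → ℕ) (k : ℕ) : Set (ℕ → ℕ) := {z | ∀ i < k, z i ≤ σ i}

theorem box_zero (σ : ℕ → ℕ) : box σ 0 = Set.univ := by
  ext z
  simp [box]

theorem exists_box {X : Type*} (f : (ℕ → ℕ) → X) (c : Set X → ENNReal)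
    (hcont : ∀ s : ℕ → Set X, Monotone s → c (⋃ n, s n) = ⨆ n, c (s n)) {ε : ENNReal}
    (h : ε < c (Set.range f)) : ∃ σ : ℕ → ℕ, ∀ k, ε < c (f '' box σ k) := by
  have hstep : ∀ (k : ℕ) (σ : ℕ → ℕ), ε < c (f '' box σ k) →
      ∃ n, ε < c (f '' box (Function.update σ k n) (k + 1)) := by
    intro k σ hσ
    have h1 : f '' box σ k = ⋃ n, f '' box (Function.update σ k n) (k + 1) := by
      rw [← Set.image_iUnion]
      congr 1
      ext z
      simp only [Set.mem_iUnion]
      constructor
      · intro hz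
        refine ⟨z k, fun i hi => ?_⟩
        by_cases hik : i = k
        · subst hik
          rw [Function.update_self]
        · rw [Function.update_of_ne hik]
          exact hz i (by omega)
      · rintro ⟨n, hz⟩ i hi
        have := hz i (by omega)
        rwa [Function.update_of_ne (by omega)] at this
    have h2 : Monotone fun n => f '' box (Function.update σ k n) (k + 1) := by
      intro a b hab
      refine Set.image_mono fun z hz i hi => ?_
      have := hz i hi
      by_cases hik : i = k
      · subst hik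
        rw [Function.update_self] at this ⊢
        omega
      · rw [Function.update_of_ne hik] at this ⊢
        exact this
    rw [h1, hcont _ h2] at hσ
    exact lt_iSup_iff.1 hσ
  choose g hg using hstep
  let S : ∀ k : ℕ, {σ : ℕ → ℕ // ε < c (f '' box σ k)} := fun k =>
    Nat.rec (motive := fun k => {σ : ℕ → ℕ // ε < c (f '' box σ k)})
      ⟨fun _ => 0, by rw [box_zero, Set.image_univ]; exact h⟩
      (fun k s => ⟨Function.update s.1 k (g k s.1 s.2), hg k s.1 s.2⟩) k
  have hS : ∀ k i, i ≠ k → (S (k + 1)).1 i = (S k).1 i := by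
    intro k i hik
    show Function.update (S k).1 k _ i = _
    rw [Function.update_of_ne hik]
  have hS2 : ∀ k i, i < k → (S k).1 i = (S (i + 1)).1 i := by
    intro k
    induction k with
    | zero => intro i hi; omega
    | succ k ih =>
      intro i hi
      by_cases hik : i = k
      · subst hik
        rfl
      · rw [hS k i hik]
        exact ih i (by omega)
  refine ⟨fun i => (S (i + 1)).1 i, fun k => ?_⟩
  have h1 : box (fun i => (S (i + 1)).1 i) k = box (S k).1 k := by
    ext z
    constructor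
    · intro hz i hi
      rw [hS2 k i hi]
      exact hz i hi
    · intro hz i hi
      show z i ≤ (S (i + 1)).1 i
      rw [← hS2 k i hi]
      exact hz i hi
  rw [h1]
  exact (S k).2

theorem box_compact (σ : ℕ → ℕ) : IsCompact {z : ℕ → ℕ | ∀ i, z i ≤ σ i} := by
  have h1 : {z : ℕ → ℕ | ∀ i, z i ≤ σ i} = Set.pi Set.univ fun i => Set.Iic (σ i) := by
    ext z
    simp [Pi.le_def]
  rw [h1]
  exact isCompact_univ_pi fun i => (Set.finite_Iic (σ i)).isCompact

theorem box_subset_open (σ : ℕ → ℕ) {V : Set (ℕ → ℕ)} (hV : IsOpen V)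
    (h : {z : ℕ → ℕ | ∀ i, z i ≤ σ i} ⊆ V) : ∃ k, box σ k ⊆ V := by
  by_contra hcon
  push Not at hcon
  have h1 : ∀ k, ∃ z ∈ box σ k, z ∉ V := fun k => Set.not_subset.1 (hcon k)
  choose z hz hzV using h1
  set zt : ℕ → (ℕ → ℕ) := fun k i => min (z k i) (σ i) with hzt
  have h2 : ∀ k, zt k ∈ {z : ℕ → ℕ | ∀ i, z i ≤ σ i} := fun k i => min_le_right _ _
  obtain ⟨y, hy, hlim⟩ := (box_compact σ).ultrafilter_le_nhds ((hyperfilter ℕ).map zt)
    (by
      rw [le_principal_iff]
      exact Filter.mem_map.2 (Filter.univ_mem' h2))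
  have h3 : Tendsto zt (hyperfilter ℕ : Filter ℕ) (𝓝 y) := hlim
  have h4 : Tendsto z (hyperfilter ℕ : Filter ℕ) (𝓝 y) := by
    rw [tendsto_pi_nhds] at h3 ⊢
    intro i
    refine (h3 i).congr' ?_
    have h5 : ∀ᶠ k in (hyperfilter ℕ : Filter ℕ), i < k :=
      (eventually_gt_atTop i).filter_mono Nat.hyperfilter_le_atTop
    filter_upwards [h5] with k hk
    exact min_eq_left (hz k i hk)
  have h5 : y ∈ Vᶜ := hV.isClosed_compl.mem_of_tendsto h4 (Eventually.of_forall hzV)
  exact h5 (h hy)

theorem capacitable {X : Type*} [TopologicalSpace X] {A : Set X} (hA : AnalyticSet A)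
    (c : Set X → ENNReal) (hmono : Monotone c)
    (hcont : ∀ s : ℕ → Set X, Monotone s → c (⋃ n, s n) = ⨆ n, c (s n)) {ε : ENNReal}
    (h : ε < c A) (hempty : c ∅ = 0) :
    ∃ K ⊆ A, IsCompact K ∧ ∀ V, IsOpen V → K ⊆ V → ε < c V := by
  rw [AnalyticSet] at hA
  rcases hA with rfl | ⟨f, hf, rfl⟩
  · rw [hempty] at h
    exact absurd h not_lt_zero'
  · obtain ⟨σ, hσ⟩ := exists_box f c hcont h
    refine ⟨f '' {z | ∀ i, z i ≤ σ i}, Set.image_subset_range _ _, (box_compact σ).image hf, ?_⟩
    intro V hV hKV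
    obtain ⟨k, hk⟩ := box_subset_open σ (hV.preimage hf) (Set.image_subset_iff.1 hKV)
    exact (hσ k).trans_le (hmono (Set.image_subset_iff.2 hk))

end Pool.Agent.TH601.EX
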