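import Pool.Agent.TH601.EX.Abs

/-!
The configuration space: the state given by the fair product measure, and its invariance under
flips and swaps.
-/

open MeasureTheory Filter Topology

set_option linter.unusedSectionVars false
set_option linter.unusedSimpArgs false

namespace Pool.Agent.TH601.EX

/-- composition as a continuous linear map -/
noncomputable def compL {X : Type*} [TopologicalSpace X] [CompactSpace X] (φ : C(X, X)) :
    C(X, ℝ) →L[ℝ] C(X, ℝ) :=
  LinearMap.mkContinuous (compMap φ) 1 (by
    intro f
    rw [one_mul, ContinuousMap.norm_le _ (norm_nonneg _)]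
    intro x
    exact f.norm_coe_le_norm (φ x))

theorem compL_apply {X : Type*} [TopologicalSpace X] [CompactSpace X] (φ : C(X, X))
    (f : C(X, ℝ)) (x : X) : compL φ f x = f (φ x) := rfl

section Inv

variable {X : Type*} [TopologicalSpace X] [CompactSpace X]

/-- `φ` is an involution preserving `m` -/
structure IsInv (m : C(X, ℝ) →ₗ[ℝ] ℝ) (φ : C(X, X)) : Prop where
  invol : ∀ x, φ (φ x) = x
  pres : ∀ f, m (compL φ f) = m f

theorem IsInv.isGen {m : C(X, ℝ) →ₗ[ℝ] ℝ} {φ : C(X, X)} (hφ : IsInv m φ) :
    IsGen m (compL φ - ContinuousLinearMap.id ℝ C(X, ℝ)) where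
  pos := by
    refine ⟨1, fun f hf x => ?_⟩
    show 0 ≤ (f (φ x) - f x) + 1 * f x
    have := nonneg_apply hf (φ x)
    linarith
  one := by
    ext x
    show (1 : C(X, ℝ)) (φ x) - (1 : C(X, ℝ)) x = 0
    simp
  symm := by
    intro f g
    have h1 : m (f * compL φ g) = m (compL φ f * g) := by
      rw [← hφ.pres (compL φ f * g)]
      congr 1
      ext x
      show f x * g (φ x) = f (φ (φ x)) * g (φ x)
      rw [hφ.invol]
    have h2 : f * (compL φ - ContinuousLinearMap.id ℝ C(X, ℝ)) g = f * compL φ g - f * g := by
      ext x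
      show f x * (g (φ x) - g x) = f x * g (φ x) - f x * g x
      ring
    have h3 : (compL φ - ContinuousLinearMap.id ℝ C(X, ℝ)) f * g = compL φ f * g - f * g := by
      ext x
      show (f (φ x) - f x) * g x = f (φ x) * g x - f x * g x
      ring
    rw [h2, h3, map_sub, map_sub, h1]

theorem IsGen.smul {m : C(X, ℝ) →ₗ[ℝ] ℝ} {G : C(X, ℝ) →L[ℝ] C(X, ℝ)} (hG : IsGen m G) {a : ℝ}
    (ha : 0 ≤ a) : IsGen m (a • G) where
  pos := by
    obtain ⟨c, hc⟩ := hG.pos
    refine ⟨a * c, fun f hf x => ?_⟩
    show 0 ≤ a * (G f x) + (a * c) * f x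
    have h1 : 0 ≤ G f x + c * f x := nonneg_apply (hc f hf) x
    have h2 := mul_nonneg ha h1
    linarith
  one := by
    show a • G 1 = 0
    rw [hG.one, smul_zero]
  symm := by
    intro f g
    show m (f * a • G g) = m ((a • G f) * g)
    rw [mul_smul_comm, smul_mul_assoc, map_smul, map_smul, hG.symm]

theorem IsGen.add {m : C(X, ℝ) →ₗ[ℝ] ℝ} {G G' : C(X, ℝ) →L[ℝ] C(X, ℝ)} (hG : IsGen m G)
    (hG' : IsGen m G') : IsGen m (G + G') where
  pos := by
    obtain ⟨c, hc⟩ := hG.pos
    obtain ⟨c', hc'⟩ := hG'.pos
    refine ⟨c + c', fun f hf x => ?_⟩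
    show 0 ≤ (G f x + G' f x) + (c + c') * f x
    have h1 : 0 ≤ G f x + c * f x := nonneg_apply (hc f hf) x
    have h2 : 0 ≤ G' f x + c' * f x := nonneg_apply (hc' f hf) x
    linarith
  one := by
    show G 1 + G' 1 = 0
    rw [hG.one, hG'.one, add_zero]
  symm := by
    intro f g
    show m (f * (G g + G' g)) = m ((G f + G' f) * g)
    rw [mul_add, add_mul, map_add, map_add, hG.symm, hG'.symm]

theorem isGen_zero {m : C(X, ℝ) →ₗ[ℝ] ℝ} : IsGen m (0 : C(X, ℝ) →L[ℝ] C(X, ℝ)) where
  pos := ⟨0, fun f _ x => by show 0 ≤ (0 : ℝ) + 0 * f x; simp⟩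
  one := rfl
  symm := by
    intro f g
    show m (f * 0) = m (0 * g)
    simp

theorem isGen_sum {m : C(X, ℝ) →ₗ[ℝ] ℝ} {ι : Type*} (s : Finset ι)
    (G : ι → C(X, ℝ) →L[ℝ] C(X, ℝ)) (hG : ∀ i ∈ s, IsGen m (G i)) : IsGen m (∑ i ∈ s, G i) := by
  classical
  induction s using Finset.induction_on with
  | empty => simpa using isGen_zero
  | insert i s hi ih =>
    rw [Finset.sum_insert hi]
    exact (hG i (Finset.mem_insert_self _ _)).add
      (ih fun j hj => hG j (Finset.mem_insert_of_mem hj))

theorem inv_energy {m : C(X, ℝ) →ₗ[ℝ] ℝ} {φ : C(X, X)} (hφ : IsInv m φ) (f : C(X, ℝ)) :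
    -(m (f * (compL φ f - f))) = (1 / 2) * m ((compL φ f - f) * (compL φ f - f)) := by
  have h1 : m (compL φ f * compL φ f) = m (f * f) := by
    rw [← hφ.pres (f * f)]
    rfl
  have h2 : (compL φ f - f) * (compL φ f - f)
      = compL φ f * compL φ f - (2 : ℝ) • (f * compL φ f) + f * f := by
    ext x
    simp
    ring
  rw [h2, map_add, map_sub, map_smul, h1, mul_sub, map_sub, smul_eq_mul]
  ring

end Inv

/-! ### The fair state -/

section Fair

variable {I : Type*} [Countable I]

instance : IsProbabilityMeasure (fair I) := by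
  unfold fair
  infer_instance

theorem integrable_fair (f : C(I → Bool, ℝ)) : Integrable (fun z => f z) (fair I) :=
  (BoundedContinuousFunction.mkOfCompact f).integrable (fair I)

/-- expectation with respect to the fair product measure -/
noncomputable def mfair (I : Type*) [Countable I] : C(I → Bool, ℝ) →ₗ[ℝ] ℝ where
  toFun f := ∫ z, f z ∂(fair I)
  map_add' f g := integral_add (integrable_fair f) (integrable_fair g)
  map_smul' a f := integral_const_mul a _

theorem mfair_state : IsState (mfair I) where
  pos := fun f hf => integral_nonneg hf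
  one := by
    show ∫ z, (1 : ℝ) ∂(fair I) = 1
    simp

variable [DecidableEq I]

/-- flip the bit at `x` -/
def flipBit (x : I) : C(I → Bool, I → Bool) where
  toFun w := Function.update w x (!(w x))
  continuous_toFun := continuous_id.update x
    ((continuous_of_discreteTopology (f := fun b : Bool => !b)).comp (continuous_apply x))

theorem coin_singleton (b : Bool) : coin {b} = 2⁻¹ := by
  cases b <;> simp [coin]

theorem coin_not : coin.map (fun b : Bool => !b) = coin := by
  rw [coin, Measure.map_smul, Measure.map_add _ _ (by fun_prop), Measure.map_dirac' (by fun_prop),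
    Measure.map_dirac' (by fun_prop)]
  simp [add_comm]

theorem fair_map_flip (x : I) : (fair I).map (flipBit x) = fair I := by
  have h1 : (flipBit x : (I → Bool) → (I → Bool))
      = fun w z => (if z = x then fun b : Bool => !b else id) (w z) := by
    funext w z
    show Function.update w x (!(w x)) z = _
    by_cases hz : z = x
    · subst hz
      simp
    · simp [hz]
  rw [h1]
  unfold fair
  rw [Measure.infinitePi_map_pi _ (fun i => measurable_of_countable _)]
  congr 1
  funext i
  by_cases hi : i = x
  · simp only [hi, if_true]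
    exact coin_not
  · simp only [hi, if_false]
    exact Measure.map_id

theorem fair_map_swap (x y : I) : (fair I).map (swapBits x y) = fair I := by
  unfold fair
  refine Measure.eq_infinitePi _ fun s t ht => ?_
  rw [Measure.map_apply (swapBits x y).continuous.measurable
    (MeasurableSet.pi s.countable_toSet fun i _ => ht i)]
  have h1 : (swapBits x y : (I → Bool) → (I → Bool)) ⁻¹' (Set.pi s t)
      = Set.pi (s.map (Equiv.swap x y).toEmbedding) (fun z => t (Equiv.swap x y z)) := by
    ext w
    simp only [Set.mem_preimage, Set.mem_pi, Finset.mem_coe, Finset.mem_map,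
      Equiv.coe_toEmbedding]
    constructor
    · rintro h z ⟨i, hi, rfl⟩
      have := h i hi
      rw [Equiv.swap_apply_self]
      exact this
    · intro h i hi
      have := h (Equiv.swap x y i) ⟨i, hi, rfl⟩
      rw [Equiv.swap_apply_self] at this
      exact this
  rw [h1, Measure.infinitePi_pi _ (fun i _ => ht _), Finset.prod_map]
  refine Finset.prod_congr rfl fun i _ => ?_
  simp

theorem pres_of_map {φ : C(I → Bool, I → Bool)} (h : (fair I).map φ = fair I)
    (f : C(I → Bool, ℝ)) : mfair I (compL φ f) = mfair I f := by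
  show ∫ z, f (φ z) ∂(fair I) = ∫ z, f z ∂(fair I)
  conv_rhs => rw [← h]
  rw [integral_map φ.continuous.measurable.aemeasurable f.continuous.aestronglyMeasurable]

theorem flip_inv (x : I) : IsInv (mfair I) (flipBit x) where
  invol := by
    intro w
    funext z
    show Function.update (Function.update w x (!(w x))) x
      (!(Function.update w x (!(w x)) x)) z = w z
    by_cases hz : z = x
    · subst hz
      simp
    · simp [hz]
  pres := pres_of_map (fair_map_flip x)

theorem swap_inv (x y : I) : IsInv (mfair I) (swapBits x y) where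
  invol := by
    intro w
    funext z
    show w (Equiv.swap x y (Equiv.swap x y z)) = w z
    rw [Equiv.swap_apply_self]
  pres := pres_of_map (fair_map_swap x y)

end Fair

end Pool.Agent.TH601.EX
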