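import Pool.Agent.TH601.EX.Law

/-!
Cylinder neighbourhoods of a closed set of configurations.
-/

open MeasureTheory Filter Topology

set_option linter.unusedSectionVars false
set_option linter.unusedSimpArgs false

namespace Pool.Agent.TH601.EX

variable {I : Type*} [Countable I] [DecidableEq I]

/-- configurations agreeing on `J` with some element of `K` -/
def cyl (J : Finset I) (K : Set (I → Bool)) : Set (I → Bool) :=
  {y | ∃ z ∈ K, ∀ x ∈ J, y x = z x}

theorem cyl_clopen (J : Finset I) (K : Set (I → Bool)) : IsClopen (cyl J K) := by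
  have h1 : cyl J K = (J.restrict (π := fun _ => Bool)) ⁻¹' ((J.restrict (π := fun _ => Bool)) '' K) := by
    ext y
    constructor
    · rintro ⟨z, hz, h⟩
      refine ⟨z, hz, ?_⟩
      funext x
      exact (h x x.2).symm
    · rintro ⟨z, hz, h⟩
      refine ⟨z, hz, fun x hx => ?_⟩
      exact (congrFun h ⟨x, hx⟩).symm
  rw [h1]
  have hc : Continuous (J.restrict (π := fun _ : I => Bool)) :=
    continuous_pi fun x => continuous_apply _
  exact (isClopen_discrete _).preimage hc

theorem subset_cyl (J : Finset I) (K : Set (I → Bool)) : K ⊆ cyl J K :=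
  fun z hz => ⟨z, hz, fun _ _ => rfl⟩

theorem cyl_anti {J J' : Finset I} (h : J ⊆ J') (K : Set (I → Bool)) : cyl J' K ⊆ cyl J K := by
  rintro y ⟨z, hz, hyz⟩
  exact ⟨z, hz, fun x hx => hyz x (h hx)⟩

theorem ind_cyl_loc (J : Finset I) (K : Set (I → Bool)) :
    ind (cyl J K) (cyl_clopen J K) ∈ loc J := by
  intro w w' h
  show (cyl J K).indicator (1 : (I → Bool) → ℝ) w = (cyl J K).indicator (1 : (I → Bool) → ℝ) w'
  have h1 : w ∈ cyl J K ↔ w' ∈ cyl J K := by
    constructor
    · rintro ⟨z, hz, hyz⟩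
      exact ⟨z, hz, fun x hx => by rw [← h x hx, hyz x hx]⟩
    · rintro ⟨z, hz, hyz⟩
      exact ⟨z, hz, fun x hx => by rw [h x hx, hyz x hx]⟩
  by_cases hw : w ∈ cyl J K
  · rw [Set.indicator_of_mem hw, Set.indicator_of_mem (h1.1 hw)]
    rfl
  · rw [Set.indicator_of_notMem hw, Set.indicator_of_notMem (fun hc => hw (h1.2 hc))]

theorem eventually_coord {ι : Type*} {l : Filter ι} {y : ι → I → Bool} {y0 : I → Bool}
    (hy : Tendsto y l (𝓝 y0)) (x : I) : ∀ᶠ i in l, y i x = y0 x := by
  rw [tendsto_pi_nhds] at hy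
  have h := hy x
  have h2 : ({y0 x} : Set Bool) ∈ 𝓝 (y0 x) := by
    rw [nhds_discrete]
    exact Filter.mem_pure.2 rfl
  exact h h2

/-- limits of configurations in shrinking cylinders around `K` lie in `K` -/
theorem mem_of_cyl {K : Set (I → Bool)} (hK : IsClosed K) {ι : Type*} {l : Filter ι} [NeBot l]
    {J : ι → Finset I} (hJ : Tendsto J l atTop) {y : ι → I → Bool} {y0 : I → Bool}
    (hy : Tendsto y l (𝓝 y0)) (h : ∀ i, y i ∈ cyl (J i) K) : y0 ∈ K := by
  choose z hz hyz using h
  refine hK.mem_of_tendsto (f := z) (b := l) ?_ (Eventually.of_forall hz)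
  rw [tendsto_pi_nhds]
  intro x
  have h1 := eventually_coord hy x
  have h2 : ∀ᶠ i in l, x ∈ J i := by
    filter_upwards [hJ.eventually (eventually_ge_atTop {x})] with i hi
    exact hi (Finset.mem_singleton_self x)
  refine tendsto_const_nhds.congr' ?_
  filter_upwards [h1, h2] with i hi1 hi2
  rw [← hyz i x hi2, hi1]

/-- a point outside `K`... `K` is the intersection of its cylinders -/
theorem iInter_cyl {K : Set (I → Bool)} (hK : IsClosed K) {J : ℕ → Finset I}
    (hJ : Tendsto J atTop atTop) {y : I → Bool} (h : ∀ n, y ∈ cyl (J n) K) : y ∈ K :=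
  mem_of_cyl hK hJ (tendsto_const_nhds (x := y)) h

end Pool.Agent.TH601.EX
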