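import Mathlib

/-!
# Ordinary dynamical percolation and the exclusion dynamics on `{0,1}^I`

`I` is a countable set (the sites or bonds of the lattice).  Both dynamics are defined as the
limits, as the finite set `Λ ⊆ I` increases to `I`, of the reversible Markov chains in which only
the bits in `Λ` move; these chains have bounded generators `G` on `C({0,1}^I, ℝ)` and transition
semigroups `e^{tG}`.
-/

open MeasureTheory Filter Topology

namespace Pool.Agent.TH601.EX

/-! ### Markov chains with a bounded generator -/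

section Semigroup

variable {X : Type*} [TopologicalSpace X]

/-- `e^{tG} f = ∑ₙ (tⁿ / n!) Gⁿ f`. -/
noncomputable def expAct (G : C(X, ℝ) →ₗ[ℝ] C(X, ℝ)) (t : ℝ) (f : C(X, ℝ)) : C(X, ℝ) :=
  ∑' n : ℕ, (t ^ n / (n.factorial : ℝ)) • ((G ^ n) f)

/-- For `l = [(s₁, F₁), (s₂, F₂), …, (sₙ, Fₙ)]` this is the function
`e^{s₁G}(F₁ · e^{s₂G}(F₂ ⋯ e^{sₙG} Fₙ))`, that is, for the Markov process `ω` with semigroup
`e^{tG}`, the function `z ↦ E_z[F₁(ω(s₁)) F₂(ω(s₁ + s₂)) ⋯ Fₙ(ω(s₁ + ⋯ + sₙ))]`. -/
noncomputable def nest (G : C(X, ℝ) →ₗ[ℝ] C(X, ℝ)) : List (ℝ × C(X, ℝ)) → C(X, ℝ)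
  | [] => 1
  | p :: l => expAct G p.1 (p.2 * nest G l)

/-- For `l = [(s₁, F₁), …, (sₙ, Fₙ)]` and a path `ω` this is the number
`F₁(ω(t + s₁)) F₂(ω(t + s₁ + s₂)) ⋯ Fₙ(ω(t + s₁ + ⋯ + sₙ))`. -/
noncomputable def obs (ω : ℝ → X) : ℝ → List (ℝ × C(X, ℝ)) → ℝ
  | _, [] => 1
  | t, p :: l => p.2 (ω (t + p.1)) * obs ω (t + p.1) l

/-- Composition with a continuous map `φ : X → X`, as the linear map `f ↦ f ∘ φ`. -/
def compMap (φ : C(X, X)) : C(X, ℝ) →ₗ[ℝ] C(X, ℝ) where
  toFun f := f.comp φ
  map_add' _ _ := rfl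
  map_smul' _ _ := rfl

end Semigroup

/-! ### Percolation configurations -/

/-- The uniform measure on `{0,1}`. -/
noncomputable def coin : Measure Bool :=
  (2⁻¹ : ENNReal) • (Measure.dirac true + Measure.dirac false)

instance : IsProbabilityMeasure coin := by
  constructor
  have h : coin Set.univ = 2⁻¹ + 2⁻¹ := by simp [coin]
  rw [h]
  exact ENNReal.inv_two_add_inv_two

/-- Critical percolation: the product over `I` of fair coins. -/
noncomputable def fair (I : Type*) : Measure (I → Bool) := Measure.infinitePi fun _ : I => coin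

variable {I : Type*} [DecidableEq I]

/-- Replace the bit at `x` by `b`. -/
def setBit (x : I) (b : Bool) : C(I → Bool, I → Bool) where
  toFun w := Function.update w x b
  continuous_toFun := continuous_id.update x continuous_const

/-- Swap the bits at `x` and `y`. -/
def swapBits (x y : I) : C(I → Bool, I → Bool) where
  toFun w z := w (Equiv.swap x y z)
  continuous_toFun := continuous_pi fun _ => continuous_apply _

/-- The generator of ordinary dynamical percolation in the finite set `Λ`: every bit `x ∈ Λ` is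
replaced at rate `1` by a fresh fair bit. -/
noncomputable def ordGen (Λ : Finset I) : C(I → Bool, ℝ) →ₗ[ℝ] C(I → Bool, ℝ) :=
  ∑ x ∈ Λ, ((1 / 2 : ℝ) • (compMap (setBit x true) + compMap (setBit x false)) - LinearMap.id)

/-- The generator of the exclusion dynamics with symmetric kernel `P` in the finite set `Λ`: for
every unordered pair `{x, y} ⊆ Λ` the bits at `x` and `y` are swapped at rate `P x y`. (The sum is
over ordered pairs, hence the factor `1/2`; the diagonal terms vanish.) -/
noncomputable def exGen (P : I → I → ℝ) (Λ : Finset I) : C(I → Bool, ℝ) →ₗ[ℝ] C(I → Bool, ℝ) :=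
  (1 / 2 : ℝ) • ∑ x ∈ Λ, ∑ y ∈ Λ, P x y • (compMap (swapBits x y) - LinearMap.id)

/-- The process `ω` (defined on the probability space `(Ω, μ)`) is the stationary process started
from critical percolation whose dynamics is the infinite-volume limit of the finite-volume
dynamics with generators `G Λ`: its paths are almost surely right-continuous with left limits
(in the product topology), and its finite-dimensional distributions are the limits, as the finite
set `Λ` increases to `I`, of those of the Markov chains with generator `G Λ` started from critical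
percolation. -/
structure IsDynamics (G : Finset I → (C(I → Bool, ℝ) →ₗ[ℝ] C(I → Bool, ℝ)))
    {Ω : Type*} [MeasurableSpace Ω] (μ : Measure Ω) (ω : ℝ → Ω → (I → Bool)) : Prop where
  measurable : ∀ t, 0 ≤ t → Measurable (ω t)
  cadlag : ∀ᵐ w ∂μ, (∀ t, 0 ≤ t → Tendsto (fun s => ω s w) (𝓝[≥] t) (𝓝 (ω t w))) ∧
    ∀ t, 0 < t → ∃ b, Tendsto (fun s => ω s w) (𝓝[<] t) (𝓝 b)
  law : ∀ l : List (ℝ × C(I → Bool, ℝ)), (∀ p ∈ l, 0 ≤ p.1) →
    Tendsto (fun Λ => ∫ z, nest (G Λ) l z ∂(fair I)) atTop
      (𝓝 (∫ w, obs (fun t => ω t w) 0 l ∂μ))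

/-- `ω` is ordinary dynamical percolation. -/
def IsOrdinary {Ω : Type*} [MeasurableSpace Ω] (μ : Measure Ω) (ω : ℝ → Ω → (I → Bool)) : Prop :=
  IsDynamics ordGen μ ω

/-- `ω` is the exclusion dynamics with kernel `P`. -/
def IsExclusion (P : I → I → ℝ) {Ω : Type*} [MeasurableSpace Ω] (μ : Measure Ω)
    (ω : ℝ → Ω → (I → Bool)) : Prop :=
  IsDynamics (exGen P) μ ω

end Pool.Agent.TH601.EX
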