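import Pool.Agent.TH601.EX.Config

/-!
The Dirichlet form of the exclusion dynamics is at most `4M` times that of the independent
dynamics.
-/

open MeasureTheory Filter Topology

set_option linter.unusedSectionVars false
set_option linter.unusedSimpArgs false

namespace Pool.Agent.TH601.EX

section expAct

variable {X : Type*} [TopologicalSpace X] [CompactSpace X]

theorem expAct_eq {G : C(X, ℝ) →ₗ[ℝ] C(X, ℝ)} {G' : C(X, ℝ) →L[ℝ] C(X, ℝ)}
    (hG : ∀ f, G f = G' f) (t : ℝ) (f : C(X, ℝ)) : expAct G t f = sg G' t f := by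
  unfold expAct
  have h := sg_hasSum G' t f
  refine HasSum.tsum_eq ?_
  have h2 : ∀ n : ℕ, (G ^ n) f = (G' ^ n) f := by
    intro n
    induction n with
    | zero => rfl
    | succ n ih =>
      rw [pow_succ', pow_succ']
      show G ((G ^ n) f) = G' ((G' ^ n) f)
      rw [ih, hG]
  simp only [h2]
  exact h

end expAct

section Energy

variable {I : Type*} [Countable I] [DecidableEq I]

/-- bounded version of `ordGen` -/
noncomputable def ordL (Λ : Finset I) : C(I → Bool, ℝ) →L[ℝ] C(I → Bool, ℝ) :=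
  ∑ x ∈ Λ, (1 / 2 : ℝ) • (compL (flipBit x) - ContinuousLinearMap.id ℝ C(I → Bool, ℝ))

/-- bounded version of `exGen` -/
noncomputable def exL (P : I → I → ℝ) (Λ : Finset I) : C(I → Bool, ℝ) →L[ℝ] C(I → Bool, ℝ) :=
  (1 / 2 : ℝ) • ∑ x ∈ Λ, ∑ y ∈ Λ,
    P x y • (compL (swapBits x y) - ContinuousLinearMap.id ℝ C(I → Bool, ℝ))

theorem ord_avg (x : I) (f : C(I → Bool, ℝ)) (w : I → Bool) :
    (1 / 2 : ℝ) * (f (setBit x true w) + f (setBit x false w)) - f w
      = (1 / 2) * (f (flipBit x w) - f w) := by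
  have h1 : ∀ b, w x = b → setBit x b w = w := by
    rintro b rfl
    show Function.update w x (w x) = w
    exact Function.update_eq_self x w
  have h2 : ∀ b, w x = b → setBit x (!b) w = flipBit x w := by
    rintro b rfl
    rfl
  rcases hb : w x with _ | _
  · have h3 := h1 _ hb
    have h4 := h2 _ hb
    simp only [Bool.not_false] at h4
    rw [h3, h4]
    ring
  · have h3 := h1 _ hb
    have h4 := h2 _ hb
    simp only [Bool.not_true] at h4
    rw [h3, h4]
    ring

theorem ordL_apply (Λ : Finset I) (f : C(I → Bool, ℝ)) :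
    ordL Λ f = ∑ x ∈ Λ, (1 / 2 : ℝ) • (compL (flipBit x) f - f) := by
  unfold ordL
  rw [ContinuousLinearMap.sum_apply]
  rfl

theorem exL_apply (P : I → I → ℝ) (Λ : Finset I) (f : C(I → Bool, ℝ)) :
    exL P Λ f = (1 / 2 : ℝ) • ∑ x ∈ Λ, ∑ y ∈ Λ, P x y • (compL (swapBits x y) f - f) := by
  have h1 : exL P Λ f = (1 / 2 : ℝ) • ((∑ x ∈ Λ, ∑ y ∈ Λ,
    P x y • (compL (swapBits x y) - ContinuousLinearMap.id ℝ C(I → Bool, ℝ))) f) := rfl
  rw [h1, ContinuousLinearMap.sum_apply]
  congr 1
  refine Finset.sum_congr rfl fun x _ => ?_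
  rw [ContinuousLinearMap.sum_apply]
  rfl

theorem ordGen_eq (Λ : Finset I) (f : C(I → Bool, ℝ)) : ordGen Λ f = ordL Λ f := by
  rw [ordL_apply]
  unfold ordGen
  rw [LinearMap.sum_apply]
  refine Finset.sum_congr rfl fun x _ => ?_
  ext w
  exact ord_avg x f w

theorem exGen_eq (P : I → I → ℝ) (Λ : Finset I) (f : C(I → Bool, ℝ)) :
    exGen P Λ f = exL P Λ f := by
  rw [exL_apply]
  unfold exGen
  rw [LinearMap.smul_apply, LinearMap.sum_apply]
  congr 1
  refine Finset.sum_congr rfl fun x _ => ?_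
  rw [LinearMap.sum_apply]
  rfl

theorem ordL_gen (Λ : Finset I) : IsGen (mfair I) (ordL Λ) :=
  isGen_sum _ _ fun x _ => (flip_inv x).isGen.smul (by norm_num)

theorem exL_gen {P : I → I → ℝ} (hP : ∀ x y, 0 ≤ P x y) (Λ : Finset I) :
    IsGen (mfair I) (exL P Λ) :=
  (isGen_sum _ _ fun x _ => isGen_sum _ _ fun y _ => (swap_inv x y).isGen.smul (hP x y)).smul
    (by norm_num)

/-- `D x f = E (∇ₓ f)²` -/
noncomputable def dir (x : I) (f : C(I → Bool, ℝ)) : ℝ :=
  mfair I ((compL (flipBit x) f - f) * (compL (flipBit x) f - f))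

theorem dir_nonneg (x : I) (f : C(I → Bool, ℝ)) : 0 ≤ dir x f :=
  mfair_state.pos _ (sq_nonneg' _)

theorem ord_energy (Λ : Finset I) (f : C(I → Bool, ℝ)) :
    -(mfair I (f * ordL Λ f)) = (1 / 4) * ∑ x ∈ Λ, dir x f := by
  rw [ordL_apply, Finset.mul_sum, map_sum, ← Finset.sum_neg_distrib, Finset.mul_sum]
  refine Finset.sum_congr rfl fun x _ => ?_
  rw [mul_smul_comm, map_smul, smul_eq_mul]
  have h := inv_energy (flip_inv x) f
  unfold dir
  linarith

theorem swap_dir_le (x y : I) (f : C(I → Bool, ℝ)) :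
    mfair I ((compL (swapBits x y) f - f) * (compL (swapBits x y) f - f))
      ≤ 2 * dir x f + 2 * dir y f := by
  have h1 : dir x f = mfair I (compL (flipBit y)
      ((compL (flipBit x) f - f) * (compL (flipBit x) f - f))) := ((flip_inv y).pres _).symm
  rw [h1]
  unfold dir
  have h0 : ∀ a b : C(I → Bool, ℝ), 2 * mfair I a + 2 * mfair I b
      = mfair I ((2 : ℝ) • a + (2 : ℝ) • b) := by
    intro a b
    rw [map_add, map_smul, map_smul, smul_eq_mul, smul_eq_mul]
  rw [h0]
  apply mfair_state.mono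
  intro w
  show (f (swapBits x y w) - f w) * (f (swapBits x y w) - f w) ≤
    2 * ((f (flipBit x (flipBit y w)) - f (flipBit y w)) *
      (f (flipBit x (flipBit y w)) - f (flipBit y w)))
    + 2 * ((f (flipBit y w) - f w) * (f (flipBit y w) - f w))
  by_cases hxy : w x = w y
  · have h2 : swapBits x y w = w := by
      funext z
      show w (Equiv.swap x y z) = w z
      by_cases hzx : z = x
      · subst hzx
        rw [Equiv.swap_apply_left, hxy]
      · by_cases hzy : z = y
        · subst hzy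
          rw [Equiv.swap_apply_right, hxy]
        · rw [Equiv.swap_apply_of_ne_of_ne hzx hzy]
    rw [h2, sub_self, mul_zero]
    have h3 := mul_self_nonneg (f (flipBit x (flipBit y w)) - f (flipBit y w))
    have h4 := mul_self_nonneg (f (flipBit y w) - f w)
    linarith
  · have hne : x ≠ y := fun h => hxy (by rw [h])
    have h2 : swapBits x y w = flipBit x (flipBit y w) := by
      funext z
      show w (Equiv.swap x y z) = Function.update (Function.update w y (!(w y))) x
        (!(Function.update w y (!(w y)) x)) z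
      by_cases hzx : z = x
      · subst hzx
        rw [Equiv.swap_apply_left, Function.update_self, Function.update_of_ne hne]
        revert hxy
        cases w z <;> cases w y <;> simp
      · by_cases hzy : z = y
        · subst hzy
          rw [Equiv.swap_apply_right, Function.update_of_ne hzx, Function.update_self]
          revert hxy
          cases w x <;> cases w z <;> simp
        · rw [Equiv.swap_apply_of_ne_of_ne hzx hzy, Function.update_of_ne hzx,
            Function.update_of_ne hzy]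
    rw [h2]
    nlinarith [mul_self_nonneg ((f (flipBit x (flipBit y w)) - f (flipBit y w))
      - (f (flipBit y w) - f w))]

theorem ex_energy_le {P : I → I → ℝ} (hP : ∀ x y, 0 ≤ P x y) (hsymm : ∀ x y, P x y = P y x)
    {M : ℝ} (hsum : ∀ x, Summable (P x)) (hM : ∀ x, ∑' y, P x y ≤ M) (Λ : Finset I)
    (f : C(I → Bool, ℝ)) :
    -(mfair I (f * exL P Λ f)) ≤ M * ∑ x ∈ Λ, dir x f := by
  have h1 : -(mfair I (f * exL P Λ f)) = (1 / 4) * ∑ x ∈ Λ, ∑ y ∈ Λ,
      P x y * mfair I ((compL (swapBits x y) f - f) * (compL (swapBits x y) f - f)) := by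
    rw [exL_apply, mul_smul_comm, map_smul, smul_eq_mul, Finset.mul_sum, map_sum]
    have h2 : ∀ x ∈ Λ, mfair I (f * ∑ y ∈ Λ, P x y • (compL (swapBits x y) f - f))
        = -((1 / 2) * ∑ y ∈ Λ, P x y * mfair I ((compL (swapBits x y) f - f) *
          (compL (swapBits x y) f - f))) := by
      intro x _
      rw [Finset.mul_sum, map_sum, Finset.mul_sum, ← Finset.sum_neg_distrib]
      refine Finset.sum_congr rfl fun y _ => ?_
      rw [mul_smul_comm, map_smul, smul_eq_mul]
      have h := inv_energy (swap_inv x y) f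
      have h' : mfair I (f * (compL (swapBits x y) f - f)) =
        -((1 / 2) * mfair I ((compL (swapBits x y) f - f) * (compL (swapBits x y) f - f))) := by
        linarith
      rw [h']
      ring
    rw [Finset.sum_congr rfl h2, Finset.sum_neg_distrib, ← Finset.mul_sum]
    ring
  rw [h1]
  have h2 : ∑ x ∈ Λ, ∑ y ∈ Λ,
      P x y * mfair I ((compL (swapBits x y) f - f) * (compL (swapBits x y) f - f))
      ≤ ∑ x ∈ Λ, ∑ y ∈ Λ, P x y * (2 * dir x f + 2 * dir y f) :=
    Finset.sum_le_sum fun x _ => Finset.sum_le_sum fun y _ =>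
      mul_le_mul_of_nonneg_left (swap_dir_le x y f) (hP x y)
  have h3 : ∑ x ∈ Λ, ∑ y ∈ Λ, P x y * (2 * dir x f + 2 * dir y f)
      = 4 * ∑ x ∈ Λ, ∑ y ∈ Λ, P x y * dir x f := by
    have h4 : ∑ x ∈ Λ, ∑ y ∈ Λ, P x y * (2 * dir x f + 2 * dir y f)
        = 2 * ∑ x ∈ Λ, ∑ y ∈ Λ, P x y * dir x f + 2 * ∑ x ∈ Λ, ∑ y ∈ Λ, P x y * dir y f := by
      rw [Finset.mul_sum, Finset.mul_sum, ← Finset.sum_add_distrib]
      refine Finset.sum_congr rfl fun x _ => ?_
      rw [Finset.mul_sum, Finset.mul_sum, ← Finset.sum_add_distrib]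
      refine Finset.sum_congr rfl fun y _ => ?_
      ring
    have h5 : ∑ x ∈ Λ, ∑ y ∈ Λ, P x y * dir y f = ∑ x ∈ Λ, ∑ y ∈ Λ, P x y * dir x f := by
      rw [Finset.sum_comm]
      refine Finset.sum_congr rfl fun x _ => Finset.sum_congr rfl fun y _ => ?_
      rw [hsymm]
    rw [h4, h5]
    ring
  have h4 : ∑ x ∈ Λ, ∑ y ∈ Λ, P x y * dir x f ≤ M * ∑ x ∈ Λ, dir x f := by
    rw [Finset.mul_sum]
    refine Finset.sum_le_sum fun x _ => ?_
    rw [← Finset.sum_mul]
    refine mul_le_mul_of_nonneg_right ?_ (dir_nonneg x f)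
    exact ((hsum x).sum_le_tsum Λ fun y _ => hP x y).trans (hM x)
  calc (1 / 4) * ∑ x ∈ Λ, ∑ y ∈ Λ,
      P x y * mfair I ((compL (swapBits x y) f - f) * (compL (swapBits x y) f - f))
      ≤ (1 / 4) * (4 * (M * ∑ x ∈ Λ, dir x f)) := by
        refine mul_le_mul_of_nonneg_left ?_ (by norm_num)
        rw [h3] at h2
        linarith
    _ = M * ∑ x ∈ Λ, dir x f := by ring

/-! ### Functions depending on finitely many bits -/

/-- functions of the bits in `J` -/
def loc (J : Finset I) : Submodule ℝ C(I → Bool, ℝ) where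
  carrier := {f | ∀ w w' : I → Bool, (∀ x ∈ J, w x = w' x) → f w = f w'}
  add_mem' := by
    intro f g hf hg w w' h
    show f w + g w = f w' + g w'
    rw [hf w w' h, hg w w' h]
  zero_mem' := fun w w' _ => rfl
  smul_mem' := by
    intro a f hf w w' h
    show a * f w = a * f w'
    rw [hf w w' h]

theorem loc_closed (J : Finset I) : IsClosed (loc J : Set C(I → Bool, ℝ)) := by
  have h1 : (loc J : Set C(I → Bool, ℝ)) = ⋂ w : I → Bool, ⋂ w' : I → Bool,
      ⋂ _ : ∀ x ∈ J, w x = w' x, {f : C(I → Bool, ℝ) | f w = f w'} := by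
    ext f
    simp only [Set.mem_iInter, Set.mem_setOf_eq]
    rfl
  rw [h1]
  exact isClosed_iInter fun w => isClosed_iInter fun w' => isClosed_iInter fun _ =>
    isClosed_eq (continuous_eval_const w) (continuous_eval_const w')

theorem loc_flip {J : Finset I} {x : I} (hx : x ∉ J) {f : C(I → Bool, ℝ)} (hf : f ∈ loc J) :
    compL (flipBit x) f = f := by
  ext w
  show f (flipBit x w) = f w
  refine hf _ _ fun z hz => ?_
  show Function.update w x (!(w x)) z = w z
  rw [Function.update_of_ne]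
  rintro rfl
  exact hx hz

theorem loc_comp_flip {J : Finset I} (x : I) {f : C(I → Bool, ℝ)} (hf : f ∈ loc J) :
    compL (flipBit x) f ∈ loc J := by
  intro w w' h
  show f (flipBit x w) = f (flipBit x w')
  refine hf _ _ fun z hz => ?_
  show Function.update w x (!(w x)) z = Function.update w' x (!(w' x)) z
  by_cases hzx : z = x
  · subst hzx
    rw [Function.update_self, Function.update_self, h z hz]
  · rw [Function.update_of_ne hzx, Function.update_of_ne hzx, h z hz]

theorem loc_ordL {J : Finset I} (Λ : Finset I) {f : C(I → Bool, ℝ)} (hf : f ∈ loc J) :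
    ordL Λ f ∈ loc J := by
  rw [ordL_apply]
  exact (loc J).sum_mem fun x _ =>
    (loc J).smul_mem _ ((loc J).sub_mem (loc_comp_flip x hf) hf)

theorem ordL_eq_of_subset {J Λ : Finset I} (hJ : J ⊆ Λ) {f : C(I → Bool, ℝ)} (hf : f ∈ loc J) :
    ordL Λ f = ordL J f := by
  rw [ordL_apply, ordL_apply]
  refine (Finset.sum_subset hJ fun x _ hx => ?_).symm
  rw [loc_flip hx hf, sub_self, smul_zero]

theorem dir_eq_zero {J : Finset I} {x : I} (hx : x ∉ J) {f : C(I → Bool, ℝ)} (hf : f ∈ loc J) :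
    dir x f = 0 := by
  unfold dir
  rw [loc_flip hx hf, sub_self, zero_mul, map_zero]

/-- The comparison of Dirichlet forms. -/
theorem ex_energy_le_ord {P : I → I → ℝ} (hP : ∀ x y, 0 ≤ P x y)
    (hsymm : ∀ x y, P x y = P y x) {M : ℝ} (hM0 : 0 ≤ M) (hsum : ∀ x, Summable (P x))
    (hM : ∀ x, ∑' y, P x y ≤ M) (Λ J : Finset I) {f : C(I → Bool, ℝ)} (hf : f ∈ loc J) :
    -(mfair I (f * exL P Λ f)) ≤ 4 * M * (-(mfair I (f * ordL J f))) := by
  rw [ord_energy]
  refine (ex_energy_le hP hsymm hsum hM Λ f).trans ?_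
  have h1 : ∑ x ∈ Λ, dir x f ≤ ∑ x ∈ J, dir x f := by
    have h2 : ∑ x ∈ Λ, dir x f = ∑ x ∈ Λ with x ∈ J, dir x f := by
      rw [Finset.sum_filter]
      refine Finset.sum_congr rfl fun x _ => ?_
      split_ifs with h
      · rfl
      · exact dir_eq_zero h hf
    rw [h2]
    refine Finset.sum_le_sum_of_subset_of_nonneg ?_ fun x _ _ => dir_nonneg x f
    intro x hx
    exact (Finset.mem_filter.1 hx).2
  calc M * ∑ x ∈ Λ, dir x f ≤ M * ∑ x ∈ J, dir x f := mul_le_mul_of_nonneg_left h1 hM0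
    _ = 4 * M * (1 / 4 * ∑ x ∈ J, dir x f) := by ring

end Energy

end Pool.Agent.TH601.EX
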