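import Pool.Agent.TH601.EX.Cyl

/-!
For the independent dynamics, almost surely no bit flips at a time at which the left limit of
the configuration lies in a given null compact set.
-/

open MeasureTheory Filter Topology

set_option linter.unusedSectionVars false
set_option linter.unusedSimpArgs false

namespace Pool.Agent.TH601.EX

theorem cross_le {X : Type*} [TopologicalSpace X] [CompactSpace X] {m : C(X, ℝ) →ₗ[ℝ] ℝ}
    (hm : IsState m) {G : C(X, ℝ) →L[ℝ] C(X, ℝ)} (hG : IsGen m G) {h : ℝ} (hh : 0 ≤ h)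
    {F1 F2 : C(X, ℝ)} (h0 : 0 ≤ F1) (h12 : F1 * F2 = 0) :
    m (F1 * sg G h F2) ≤ h * ‖G F2‖ * m F1 := by
  have h1 := sg_sub_le hm hG hh F2
  have h2 : F1 * sg G h F2 ≤ (h * ‖G F2‖) • F1 := by
    intro x
    have h3 : F1 x * F2 x = 0 := congrArg (fun f : C(X, ℝ) => f x) h12
    have h4 : sg G h F2 x - F2 x ≤ h * ‖G F2‖ :=
      (le_abs_self _).trans (((sg G h F2 - F2).norm_coe_le_norm x).trans h1)
    have h5 := nonneg_apply h0 x
    show F1 x * sg G h F2 x ≤ (h * ‖G F2‖) * F1 x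
    nlinarith
  have h3 := hm.mono h2
  rw [map_smul, smul_eq_mul] at h3
  exact h3

/-! ### Dyadic grids -/

theorem grid_jump {N : ℕ} {t : ℝ} (ht0 : 0 < t) (htN : t ≤ N) {δ : ℝ} (hδ : 0 < δ) :
    ∀ᶠ n : ℕ in atTop, ∃ k : ℕ, k < N * 2 ^ n ∧ t - δ < k * (1 / 2 : ℝ) ^ n ∧
      k * (1 / 2 : ℝ) ^ n < t ∧ t ≤ k * (1 / 2 : ℝ) ^ n + (1 / 2 : ℝ) ^ n ∧
      k * (1 / 2 : ℝ) ^ n + (1 / 2 : ℝ) ^ n < t + δ := by
  have h1 : Tendsto (fun n : ℕ => (1 / 2 : ℝ) ^ n) atTop (𝓝 0) :=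
    tendsto_pow_atTop_nhds_zero_of_lt_one (by norm_num) (by norm_num)
  filter_upwards [h1.eventually (gt_mem_nhds hδ)] with n hn
  have h2 : (2 : ℝ) ^ n * (1 / 2 : ℝ) ^ n = 1 := by
    rw [← mul_pow]
    norm_num
  have hp : (0 : ℝ) < (1 / 2 : ℝ) ^ n := by positivity
  have hp2 : (0 : ℝ) < (2 : ℝ) ^ n := by positivity
  set c : ℕ := ⌈t * 2 ^ n⌉₊ with hc
  have hc1 : 0 < c := Nat.ceil_pos.2 (by positivity)
  have hc2 : (c : ℝ) < t * 2 ^ n + 1 := Nat.ceil_lt_add_one (by positivity)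
  have hc3 : t * 2 ^ n ≤ c := Nat.le_ceil _
  have hc4 : c ≤ N * 2 ^ n := by
    rw [hc]
    refine Nat.ceil_le.2 ?_
    push_cast
    exact mul_le_mul_of_nonneg_right htN hp2.le
  obtain ⟨k, hk⟩ : ∃ k, c = k + 1 := ⟨c - 1, by omega⟩
  have hk' : (c : ℝ) = k + 1 := by rw [hk]; push_cast; ring
  have h3 : (k : ℝ) * (1 / 2 : ℝ) ^ n < t := by
    have h4 : (k : ℝ) < t * 2 ^ n := by linarith
    calc (k : ℝ) * (1 / 2 : ℝ) ^ n < t * 2 ^ n * (1 / 2 : ℝ) ^ n :=
          mul_lt_mul_of_pos_right h4 hp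
      _ = t := by rw [mul_assoc, h2, mul_one]
  have h4 : t ≤ (k : ℝ) * (1 / 2 : ℝ) ^ n + (1 / 2 : ℝ) ^ n := by
    calc t = t * 2 ^ n * (1 / 2 : ℝ) ^ n := by rw [mul_assoc, h2, mul_one]
      _ ≤ c * (1 / 2 : ℝ) ^ n := mul_le_mul_of_nonneg_right hc3 hp.le
      _ = _ := by rw [hk']; ring
  refine ⟨k, by omega, by linarith, h3, h4, by linarith⟩

theorem grid_right {T : ℕ} {t : ℝ} (ht0 : 0 ≤ t) (htT : t ≤ T) {δ : ℝ} (hδ : 0 < δ) :
    ∃ n k : ℕ, k ≤ T * 2 ^ n ∧ t ≤ k * (1 / 2 : ℝ) ^ n ∧ k * (1 / 2 : ℝ) ^ n < t + δ := by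
  have h1 : Tendsto (fun n : ℕ => (1 / 2 : ℝ) ^ n) atTop (𝓝 0) :=
    tendsto_pow_atTop_nhds_zero_of_lt_one (by norm_num) (by norm_num)
  obtain ⟨n, hn⟩ := (h1.eventually (gt_mem_nhds hδ)).exists
  have h2 : (2 : ℝ) ^ n * (1 / 2 : ℝ) ^ n = 1 := by
    rw [← mul_pow]
    norm_num
  have hp : (0 : ℝ) < (1 / 2 : ℝ) ^ n := by positivity
  have hp2 : (0 : ℝ) < (2 : ℝ) ^ n := by positivity
  have hc2 : (⌈t * 2 ^ n⌉₊ : ℝ) < t * 2 ^ n + 1 := Nat.ceil_lt_add_one (by positivity)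
  have hc3 : t * 2 ^ n ≤ ⌈t * 2 ^ n⌉₊ := Nat.le_ceil _
  refine ⟨n, ⌈t * 2 ^ n⌉₊, ?_, ?_, ?_⟩
  · refine Nat.ceil_le.2 ?_
    push_cast
    exact mul_le_mul_of_nonneg_right htT hp2.le
  · calc t = t * 2 ^ n * (1 / 2 : ℝ) ^ n := by rw [mul_assoc, h2, mul_one]
      _ ≤ ⌈t * 2 ^ n⌉₊ * (1 / 2 : ℝ) ^ n := mul_le_mul_of_nonneg_right hc3 hp.le
  · calc (⌈t * 2 ^ n⌉₊ : ℝ) * (1 / 2 : ℝ) ^ n < (t * 2 ^ n + 1) * (1 / 2 : ℝ) ^ n :=
          mul_lt_mul_of_pos_right hc2 hp
      _ = t + (1 / 2 : ℝ) ^ n := by rw [add_mul, mul_assoc, h2, mul_one, one_mul]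
      _ < t + δ := by linarith

section Jump

variable {I : Type*} [Countable I] [DecidableEq I]
variable {Ω : Type*} [MeasurableSpace Ω] {μ : Measure Ω} [IsProbabilityMeasure μ]
variable {η : ℝ → Ω → (I → Bool)}

theorem coord_clopen (x : I) (b : Bool) : IsClopen {w : I → Bool | w x = b} :=
  (isClopen_discrete {b}).preimage (continuous_apply x)

theorem law_zero {G : Finset I → (C(I → Bool, ℝ) →ₗ[ℝ] C(I → Bool, ℝ))}
    {G' : Finset I → (C(I → Bool, ℝ) →L[ℝ] C(I → Bool, ℝ))}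
    (hdyn : IsDynamics G μ η) (hG : ∀ Λ f, G Λ f = G' Λ f)
    {O : Set (I → Bool)} (hO : IsClopen O) :
    μ.real {w | η 0 w ∈ O} = mfair I (ind O hO) := by
  have h1 := law_hit hdyn hG hO (h := 0) le_rfl 0
  have h2 : ∀ Λ, 1 - mfair I (avoid (sg (G' Λ) 0) (ind O hO) 0) = mfair I (ind O hO) := by
    intro Λ
    show 1 - mfair I (1 - ind O hO) = _
    rw [map_sub, mfair_state.one]
    ring
  simp only [h2] at h1
  have h3 := tendsto_nhds_unique h1 tendsto_const_nhds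
  rw [← h3]
  congr 1
  ext w
  constructor
  · intro hw
    exact ⟨0, le_rfl, by simpa using hw⟩
  · rintro ⟨k, hk, hw⟩
    simpa using hw

theorem jump_one (hη : IsDynamics ordGen μ η) (x : I) (b : Bool) :
    ∃ C : ℝ, 0 ≤ C ∧ ∀ (O : Set (I → Bool)) (hO : IsClopen O) (s h : ℝ), 0 ≤ s → 0 ≤ h →
      μ.real {w | η s w ∈ O ∧ η s w x = b ∧ η (s + h) w x = !b} ≤ C * h * mfair I (ind O hO) := by
  set F2 : C(I → Bool, ℝ) := ind _ (coord_clopen x (!b)) with hF2
  set Fb : C(I → Bool, ℝ) := ind _ (coord_clopen x b) with hFb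
  have hF2loc : F2 ∈ loc {x} := by
    intro w w' hw
    have h1 := hw x (Finset.mem_singleton_self x)
    show Set.indicator {w : I → Bool | w x = !b} (1 : (I → Bool) → ℝ) w
      = Set.indicator {w : I → Bool | w x = !b} (1 : (I → Bool) → ℝ) w'
    simp only [Set.indicator_apply, Set.mem_setOf_eq, h1]
    rfl
  refine ⟨‖ordL {x} F2‖, norm_nonneg _, fun O hO s h hs hh => ?_⟩
  set e : C(I → Bool, ℝ) := ind O hO with he
  set F1 : C(I → Bool, ℝ) := e * Fb with hF1
  have hF1pos : 0 ≤ F1 := by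
    intro w
    exact mul_nonneg (nonneg_apply (ind_idem O hO).nonneg w)
      (nonneg_apply (ind_idem _ (coord_clopen x b)).nonneg w)
  have hF1le : F1 ≤ e := by
    intro w
    show e w * Fb w ≤ e w
    have h1 := nonneg_apply (ind_idem O hO).nonneg w
    have h2 := le_apply (ind_idem _ (coord_clopen x b)).le_one w
    have h3 : (1 : C(I → Bool, ℝ)) w = 1 := rfl
    rw [h3] at h2
    exact mul_le_of_le_one_right h1 h2
  have h12 : F1 * F2 = 0 := by
    ext w
    show (e w * Fb w) * F2 w = 0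
    by_cases hw : w x = b
    · have h1 : F2 w = 0 := by
        show Set.indicator {w : I → Bool | w x = !b} (1 : (I → Bool) → ℝ) w = 0
        rw [Set.indicator_of_notMem]
        intro h
        rw [Set.mem_setOf_eq, hw] at h
        cases b <;> simp at h
      rw [h1, mul_zero]
    · have h1 : Fb w = 0 := by
        show Set.indicator {w : I → Bool | w x = b} (1 : (I → Bool) → ℝ) w = 0
        rw [Set.indicator_of_notMem]
        exact hw
      rw [h1, mul_zero, zero_mul]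
  have hlaw := hη.law [(s, F1), (h, F2)] (by
    intro p hp
    simp only [List.mem_cons, List.not_mem_nil, or_false] at hp
    rcases hp with rfl | rfl
    · exact hs
    · exact hh)
  set E : Set Ω := {w | η s w ∈ O ∧ η s w x = b ∧ η (s + h) w x = !b} with hE
  have hEm : MeasurableSet E := by
    have hm1 := hη.measurable s hs
    have hm2 := hη.measurable (s + h) (by positivity)
    exact (hm1 hO.isOpen.measurableSet).inter
      ((hm1 (coord_clopen x b).isOpen.measurableSet).inter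
        (hm2 (coord_clopen x (!b)).isOpen.measurableSet))
  have hobs : ∫ w, obs (fun t => η t w) 0 [(s, F1), (h, F2)] ∂μ = μ.real E := by
    have h1 : (fun w => obs (fun t => η t w) 0 [(s, F1), (h, F2)])
        = E.indicator (1 : Ω → ℝ) := by
      funext w
      show (O.indicator (1 : (I → Bool) → ℝ) (η (0 + s) w) *
        Set.indicator {w : I → Bool | w x = b} (1 : (I → Bool) → ℝ) (η (0 + s) w)) *
        (Set.indicator {w : I → Bool | w x = !b} (1 : (I → Bool) → ℝ) (η (0 + s + h) w) * 1) = _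
      rw [zero_add, mul_one]
      by_cases hw : w ∈ E
      · have hw' := hw
        obtain ⟨hw1, hw2, hw3⟩ := hw'
        rw [Set.indicator_of_mem hw, Set.indicator_of_mem hw1,
          Set.indicator_of_mem (show η s w ∈ {w : I → Bool | w x = b} from hw2),
          Set.indicator_of_mem (show η (s + h) w ∈ {w : I → Bool | w x = !b} from hw3)]
        simp
      · rw [Set.indicator_of_notMem hw]
        by_cases hw1 : η s w ∈ O
        · by_cases hw2 : η s w x = b
          · have hw3 : ¬ η (s + h) w x = !b := fun h => hw ⟨hw1, hw2, h⟩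
            rw [Set.indicator_of_notMem
              (show η (s + h) w ∉ {w : I → Bool | w x = !b} from hw3), mul_zero]
          · rw [Set.indicator_of_notMem
              (show η s w ∉ {w : I → Bool | w x = b} from hw2), mul_zero, zero_mul]
        · rw [Set.indicator_of_notMem hw1, zero_mul, zero_mul]
    rw [h1, integral_indicator_one hEm]
  rw [hobs] at hlaw
  have hbound : ∀ᶠ Λ : Finset I in atTop, ∫ z, nest (ordGen Λ) [(s, F1), (h, F2)] z ∂(fair I)
      ≤ ‖ordL {x} F2‖ * h * mfair I e := by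
    filter_upwards [eventually_ge_atTop {x}] with Λ hΛ
    have h1 : ∫ z, nest (ordGen Λ) [(s, F1), (h, F2)] z ∂(fair I)
        = mfair I (F1 * sg (ordL Λ) h F2) := by
      show mfair I (expAct (ordGen Λ) s (F1 * expAct (ordGen Λ) h (F2 * 1))) = _
      rw [expAct_eq (ordGen_eq Λ), expAct_eq (ordGen_eq Λ), mul_one,
        ((ordL_gen Λ).markov mfair_state hs).apply_one]
    rw [h1]
    have h2 := cross_le mfair_state (ordL_gen Λ) hh hF1pos h12
    rw [ordL_eq_of_subset hΛ hF2loc] at h2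
    refine h2.trans ?_
    have h3 := mfair_state.mono hF1le
    have h4 : 0 ≤ h * ‖ordL {x} F2‖ := by positivity
    calc h * ‖ordL {x} F2‖ * mfair I F1 ≤ h * ‖ordL {x} F2‖ * mfair I e :=
          mul_le_mul_of_nonneg_left h3 h4
      _ = _ := by ring
  exact le_of_tendsto hlaw hbound

theorem jump_prob (hη : IsDynamics ordGen μ η) (x : I) :
    ∃ C : ℝ, 0 ≤ C ∧ ∀ (O : Set (I → Bool)) (hO : IsClopen O) (s h : ℝ), 0 ≤ s → 0 ≤ h →
      μ.real {w | η s w ∈ O ∧ η s w x ≠ η (s + h) w x} ≤ C * h * mfair I (ind O hO) := by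
  obtain ⟨C1, hC1, h1⟩ := jump_one hη x true
  obtain ⟨C2, hC2, h2⟩ := jump_one hη x false
  refine ⟨C1 + C2, by positivity, fun O hO s h hs hh => ?_⟩
  have h3 : {w | η s w ∈ O ∧ η s w x ≠ η (s + h) w x}
      ⊆ {w | η s w ∈ O ∧ η s w x = true ∧ η (s + h) w x = !true} ∪
        {w | η s w ∈ O ∧ η s w x = false ∧ η (s + h) w x = !false} := by
    rintro w ⟨hw1, hw2⟩
    rcases hb : η s w x with _ | _
    · right
      refine ⟨hw1, hb, ?_⟩
      rw [hb] at hw2
      revert hw2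
      cases η (s + h) w x <;> simp
    · left
      refine ⟨hw1, hb, ?_⟩
      rw [hb] at hw2
      revert hw2
      cases η (s + h) w x <;> simp
  calc μ.real {w | η s w ∈ O ∧ η s w x ≠ η (s + h) w x}
      ≤ μ.real ({w | η s w ∈ O ∧ η s w x = true ∧ η (s + h) w x = !true} ∪
        {w | η s w ∈ O ∧ η s w x = false ∧ η (s + h) w x = !false}) :=
        measureReal_mono h3 (measure_ne_top _ _)
    _ ≤ μ.real {w | η s w ∈ O ∧ η s w x = true ∧ η (s + h) w x = !true} +
        μ.real {w | η s w ∈ O ∧ η s w x = false ∧ η (s + h) w x = !false} :=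
        measureReal_union_le _ _
    _ ≤ C1 * h * mfair I (ind O hO) + C2 * h * mfair I (ind O hO) :=
        add_le_add (h1 O hO s h hs hh) (h2 O hO s h hs hh)
    _ = (C1 + C2) * h * mfair I (ind O hO) := by ring

end Jump

end Pool.Agent.TH601.EX
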