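import Pool.Agent.TH601.EX.Energy

/-!
From finite-dimensional laws to hitting probabilities on a grid, and the key estimate.
-/

open MeasureTheory Filter Topology

set_option linter.unusedSectionVars false
set_option linter.unusedSimpArgs false

namespace Pool.Agent.TH601.EX

section Nest

variable {X : Type*} [TopologicalSpace X] [CompactSpace X]

theorem mul_nest_replicate {G : C(X, ℝ) →ₗ[ℝ] C(X, ℝ)} {G' : C(X, ℝ) →L[ℝ] C(X, ℝ)}
    (hG : ∀ f, G f = G' f) (e : C(X, ℝ)) (h : ℝ) (n : ℕ) :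
    (1 - e) * nest G (List.replicate n (h, 1 - e)) = avoid (sg G' h) e n := by
  induction n with
  | zero =>
    show (1 - e) * 1 = 1 - e
    rw [mul_one]
  | succ n ih =>
    rw [List.replicate_succ]
    show (1 - e) * expAct G h ((1 - e) * nest G (List.replicate n (h, 1 - e)))
      = (1 - e) * sg G' h (avoid (sg G' h) e n)
    rw [ih, expAct_eq hG]

theorem nest_avoid {G : C(X, ℝ) →ₗ[ℝ] C(X, ℝ)} {G' : C(X, ℝ) →L[ℝ] C(X, ℝ)}
    (hG : ∀ f, G f = G' f) (e : C(X, ℝ)) (h : ℝ) (n : ℕ) :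
    nest G ((0, 1 - e) :: List.replicate n (h, 1 - e)) = avoid (sg G' h) e n := by
  show expAct G 0 ((1 - e) * nest G (List.replicate n (h, 1 - e))) = _
  rw [mul_nest_replicate hG, expAct_eq hG, sg_zero]

/-- the indicator of a clopen set -/
noncomputable def ind (O : Set X) (hO : IsClopen O) : C(X, ℝ) where
  toFun := O.indicator 1
  continuous_toFun := (IsClopen.continuous_indicator hO continuous_one)

theorem ind_idem (O : Set X) (hO : IsClopen O) : IsIdem (ind O hO) := by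
  intro x
  show O.indicator 1 x = (0 : ℝ) ∨ O.indicator 1 x = (1 : ℝ)
  by_cases hx : x ∈ O
  · right
    rw [Set.indicator_of_mem hx]
    rfl
  · left
    rw [Set.indicator_of_notMem hx]

open Classical in
theorem obs_ind (path : ℝ → X) (O : Set X) (hO : IsClopen O) (h : ℝ) (n : ℕ) :
    ∀ t : ℝ, obs path t (List.replicate n (h, 1 - ind O hO))
      = if ∃ k : ℕ, k < n ∧ path (t + (k + 1) * h) ∈ O then 0 else 1 := by
  induction n with
  | zero =>
    intro t
    simp [obs]
  | succ n ih =>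
    intro t
    rw [List.replicate_succ]
    show (1 - O.indicator 1 (path (t + h))) *
      obs path (t + h) (List.replicate n (h, 1 - ind O hO)) = _
    rw [ih (t + h)]
    by_cases h1 : path (t + h) ∈ O
    · rw [Set.indicator_of_mem h1]
      have h2 : ∃ k : ℕ, k < n + 1 ∧ path (t + (k + 1) * h) ∈ O :=
        ⟨0, Nat.succ_pos _, by simpa using h1⟩
      rw [if_pos h2]
      simp
    · rw [Set.indicator_of_notMem h1, sub_zero, one_mul]
      congr 1
      apply propext
      constructor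
      · rintro ⟨k, hk, hk2⟩
        refine ⟨k + 1, by omega, ?_⟩
        have h3 : t + ((k + 1 : ℕ) + 1 : ℝ) * h = t + h + (k + 1) * h := by
          push_cast
          ring
        rw [h3]
        exact hk2
      · rintro ⟨k, hk, hk2⟩
        rcases Nat.eq_zero_or_pos k with h0 | h0
        · subst h0
          exfalso
          apply h1
          simpa using hk2
        · obtain ⟨j, rfl⟩ : ∃ j, k = j + 1 := ⟨k - 1, by omega⟩
          refine ⟨j, by omega, ?_⟩
          have h3 : t + ((j + 1 : ℕ) + 1 : ℝ) * h = t + h + (j + 1) * h := by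
            push_cast
            ring
          rw [h3] at hk2
          exact hk2

open Classical in
theorem obs_ind' (path : ℝ → X) (O : Set X) (hO : IsClopen O) (h : ℝ) (n : ℕ) :
    obs path 0 ((0, 1 - ind O hO) :: List.replicate n (h, 1 - ind O hO))
      = if ∃ k : ℕ, k ≤ n ∧ path (k * h) ∈ O then 0 else 1 := by
  show (1 - O.indicator 1 (path (0 + 0))) *
      obs path (0 + 0) (List.replicate n (h, 1 - ind O hO)) = _
  rw [add_zero, obs_ind]
  by_cases h1 : path 0 ∈ O
  · rw [Set.indicator_of_mem h1]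
    have h2 : ∃ k : ℕ, k ≤ n ∧ path (k * h) ∈ O := ⟨0, Nat.zero_le _, by simpa using h1⟩
    rw [if_pos h2]
    simp
  · rw [Set.indicator_of_notMem h1, sub_zero, one_mul]
    congr 1
    apply propext
    constructor
    · rintro ⟨k, hk, hk2⟩
      refine ⟨k + 1, by omega, ?_⟩
      have h3 : ((k + 1 : ℕ) : ℝ) * h = 0 + (k + 1) * h := by
        push_cast
        ring
      rw [h3]
      exact hk2
    · rintro ⟨k, hk, hk2⟩
      rcases Nat.eq_zero_or_pos k with h0 | h0
      · subst h0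
        exfalso
        apply h1
        simpa using hk2
      · obtain ⟨j, rfl⟩ : ∃ j, k = j + 1 := ⟨k - 1, by omega⟩
        refine ⟨j, by omega, ?_⟩
        have h3 : ((j + 1 : ℕ) : ℝ) * h = 0 + (j + 1) * h := by
          push_cast
          ring
        rw [h3] at hk2
        exact hk2

end Nest

section Law

variable {I : Type*} [Countable I] [DecidableEq I]
variable {G : Finset I → (C(I → Bool, ℝ) →ₗ[ℝ] C(I → Bool, ℝ))}
variable {G' : Finset I → (C(I → Bool, ℝ) →L[ℝ] C(I → Bool, ℝ))}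
variable {Ω : Type*} [MeasurableSpace Ω] {μ : Measure Ω} [IsProbabilityMeasure μ]
variable {ω : ℝ → Ω → (I → Bool)}

theorem meas_hit (hdyn : IsDynamics G μ ω) {O : Set (I → Bool)} (hO : IsClopen O) {h : ℝ}
    (hh : 0 ≤ h) (n : ℕ) : MeasurableSet {w | ∃ k : ℕ, k ≤ n ∧ ω (k * h) w ∈ O} := by
  have h1 : {w | ∃ k : ℕ, k ≤ n ∧ ω (k * h) w ∈ O}
      = ⋃ k ∈ Set.Iic n, (ω (k * h)) ⁻¹' O := by
    ext w
    simp
  rw [h1]
  refine MeasurableSet.biUnion (Set.to_countable _) fun k _ => ?_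
  exact hdyn.measurable _ (by positivity) hO.isOpen.measurableSet

theorem law_hit (hdyn : IsDynamics G μ ω) (hG : ∀ Λ f, G Λ f = G' Λ f) {O : Set (I → Bool)}
    (hO : IsClopen O) {h : ℝ} (hh : 0 ≤ h) (n : ℕ) :
    Tendsto (fun Λ => 1 - mfair I (avoid (sg (G' Λ) h) (ind O hO) n)) atTop
      (𝓝 (μ.real {w | ∃ k : ℕ, k ≤ n ∧ ω (k * h) w ∈ O})) := by
  classical
  have h1 := hdyn.law ((0, 1 - ind O hO) :: List.replicate n (h, 1 - ind O hO)) (by
    intro p hp
    rcases List.mem_cons.1 hp with rfl | hp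
    · exact le_rfl
    · rw [List.eq_of_mem_replicate hp]
      exact hh)
  have h2 : ∀ Λ, ∫ z, nest (G Λ) ((0, 1 - ind O hO) :: List.replicate n (h, 1 - ind O hO)) z
      ∂(fair I) = mfair I (avoid (sg (G' Λ) h) (ind O hO) n) := by
    intro Λ
    rw [nest_avoid (hG Λ)]
    rfl
  simp only [h2] at h1
  have h3 := h1.const_sub 1
  have h4 : 1 - ∫ w, obs (fun t => ω t w) 0
      ((0, 1 - ind O hO) :: List.replicate n (h, 1 - ind O hO)) ∂μ
      = μ.real {w | ∃ k : ℕ, k ≤ n ∧ ω (k * h) w ∈ O} := by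
    set H : Set Ω := {w | ∃ k : ℕ, k ≤ n ∧ ω (k * h) w ∈ O} with hH
    have hHm : MeasurableSet H := meas_hit hdyn hO hh n
    have h5 : (fun w => obs (fun t => ω t w) 0
        ((0, 1 - ind O hO) :: List.replicate n (h, 1 - ind O hO)))
        = fun w => 1 - H.indicator (1 : Ω → ℝ) w := by
      funext w
      rw [obs_ind']
      by_cases hw : w ∈ H
      · rw [Set.indicator_of_mem hw, if_pos (show ∃ k : ℕ, k ≤ n ∧ ω (k * h) w ∈ O from hw)]
        simp
      · rw [Set.indicator_of_notMem hw, if_neg (show ¬ ∃ k : ℕ, k ≤ n ∧ ω (k * h) w ∈ O from hw)]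
        simp
    rw [h5, integral_sub (integrable_const _)
      ((integrable_indicator_iff hHm).2 (integrable_const _).integrableOn),
      integral_indicator_one hHm]
    simp
  rw [h4] at h3
  exact h3

end Law

section Key

variable {I : Type*} [Countable I] [DecidableEq I]

theorem avoid_loc {J Λ : Finset I} (hJ : J ⊆ Λ) {e : C(I → Bool, ℝ)} (he : e ∈ loc J) (h : ℝ)
    (n : ℕ) : avoid (sg (ordL J) h) e n ∈ loc J ∧
      avoid (sg (ordL Λ) h) e n = avoid (sg (ordL J) h) e n := by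
  induction n with
  | zero =>
    refine ⟨?_, rfl⟩
    intro w w' hw
    show 1 - e w = 1 - e w'
    rw [he w w' hw]
  | succ n ih =>
    have h1 : sg (ordL J) h (avoid (sg (ordL J) h) e n) ∈ loc J :=
      sg_mem _ (loc J) (loc_closed J) (fun f hf => loc_ordL J hf) h ih.1
    constructor
    · intro w w' hw
      show (1 - e w) * sg (ordL J) h (avoid (sg (ordL J) h) e n) w
        = (1 - e w') * sg (ordL J) h (avoid (sg (ordL J) h) e n) w'
      rw [he w w' hw, h1 w w' hw]
    · show (1 - e) * sg (ordL Λ) h (avoid (sg (ordL Λ) h) e n)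
        = (1 - e) * sg (ordL J) h (avoid (sg (ordL J) h) e n)
      rw [ih.2]
      congr 1
      exact sg_eq_on _ _ (loc J) (fun f hf => loc_ordL Λ hf)
        (fun f hf => ordL_eq_of_subset hJ hf) h ih.1

variable {Ω : Type*} [MeasurableSpace Ω] {μ : Measure Ω} [IsProbabilityMeasure μ]
variable {ω : ℝ → Ω → (I → Bool)}
variable {Ω' : Type*} [MeasurableSpace Ω'] {μ' : Measure Ω'} [IsProbabilityMeasure μ']
variable {η : ℝ → Ω' → (I → Bool)}

theorem ord_hit (hη : IsDynamics ordGen μ' η) {O : Set (I → Bool)} (hO : IsClopen O)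
    {J : Finset I} (hOJ : ind O hO ∈ loc J) {h : ℝ} (hh : 0 ≤ h) (n : ℕ) :
    1 - mfair I (avoid (sg (ordL J) h) (ind O hO) n)
      = μ'.real {w | ∃ k : ℕ, k ≤ n ∧ η (k * h) w ∈ O} := by
  have h1 := law_hit hη ordGen_eq hO hh n
  have h2 : Tendsto (fun Λ => 1 - mfair I (avoid (sg (ordL Λ) h) (ind O hO) n)) atTop
      (𝓝 (1 - mfair I (avoid (sg (ordL J) h) (ind O hO) n))) := by
    refine tendsto_const_nhds.congr' ?_
    filter_upwards [eventually_ge_atTop J] with Λ hΛ
    rw [(avoid_loc hΛ hOJ h n).2]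
  exact tendsto_nhds_unique h2 h1

/-- **Key estimate.** -/
theorem key_estimate {P : I → I → ℝ} (hP : ∀ x y, 0 ≤ P x y)
    (hsymm : ∀ x y, P x y = P y x) {M : ℝ} (hM0 : 0 ≤ M) (hsum : ∀ x, Summable (P x))
    (hM : ∀ x, ∑' y, P x y ≤ M) (hω : IsDynamics (exGen P) μ ω) (hη : IsDynamics ordGen μ' η)
    {O : Set (I → Bool)} (hO : IsClopen O) {J : Finset I} (hOJ : ind O hO ∈ loc J)
    (N T i : ℕ) :
    μ.real {w | ∃ k : ℕ, k ≤ T * 2 ^ i ∧ ω (k * (1 / 2 : ℝ) ^ i) w ∈ O} ≤
      Real.exp T * ((1 + 8 * M) *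
        (μ'.real {w | ∃ j k : ℕ, k ≤ N * 2 ^ j ∧ η (k * (1 / 2 : ℝ) ^ j) w ∈ O}
          + Real.exp (-N))) := by
  set HO : Set Ω' := {w | ∃ j k : ℕ, k ≤ N * 2 ^ j ∧ η (k * (1 / 2 : ℝ) ^ j) w ∈ O} with hHO
  have hgrid : ∀ (N j : ℕ), ((N * 2 ^ j : ℕ) : ℝ) * (1 / 2 : ℝ) ^ j = N := by
    intro N j
    push_cast
    rw [mul_assoc, ← mul_pow]
    norm_num
  have hmain : ∀ ε > 0, μ.real {w | ∃ k : ℕ, k ≤ T * 2 ^ i ∧ ω (k * (1 / 2 : ℝ) ^ i) w ∈ O} ≤
      Real.exp T * ((1 + 8 * M) * (μ'.real HO + Real.exp (-N) + ε)) := by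
    intro ε hε
    have h1 := sg_expand (ordL J) hε
    have h2 : Tendsto (fun j : ℕ => (1 / 2 : ℝ) ^ j) atTop (𝓝[>] 0) := by
      rw [tendsto_nhdsWithin_iff]
      exact ⟨tendsto_pow_atTop_nhds_zero_of_lt_one (by norm_num) (by norm_num),
        Eventually.of_forall fun j => by show (0 : ℝ) < (1 / 2) ^ j; positivity⟩
    obtain ⟨j, hj1, hj2⟩ := ((h2.eventually h1).and (eventually_ge_atTop 1)).exists
    have hh' : (1 / 2 : ℝ) ^ j ≤ 1 / 2 := by
      calc (1 / 2 : ℝ) ^ j ≤ (1 / 2 : ℝ) ^ 1 :=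
            pow_le_pow_of_le_one (by norm_num) (by norm_num) hj2
        _ = 1 / 2 := pow_one _
    have hidem := ind_idem O hO
    obtain ⟨f, hfJ, hef, hf⟩ := exists_test mfair_state (ordL_gen J) hidem
      (h := (1 / 2 : ℝ) ^ j) (by positivity) hh' (N * 2 ^ j) hj1 hε.le (loc J) (loc_closed J) hOJ
      (by
        intro f hf w w' hw
        show (1 - ind O hO w) * f w = (1 - ind O hO w') * f w'
        rw [hOJ w w' hw, hf w w' hw])
      (fun f hf => loc_ordL J hf) (K := 4 * M) (by positivity)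
    rw [hgrid, ord_hit hη hO hOJ (by positivity)] at hf
    have h3 : μ'.real {w | ∃ k : ℕ, k ≤ N * 2 ^ j ∧ η (k * (1 / 2 : ℝ) ^ j) w ∈ O}
        ≤ μ'.real HO := by
      refine measureReal_mono ?_ (measure_ne_top _ _)
      rintro w ⟨k, hk, hk2⟩
      exact ⟨j, k, hk, hk2⟩
    have h4 := law_hit hω (exGen_eq P) hO (h := (1 / 2 : ℝ) ^ i) (by positivity) (T * 2 ^ i)
    refine le_of_tendsto h4 (Eventually.of_forall fun Λ => ?_)
    have h5 := hit_le mfair_state (exL_gen hP Λ) hidem (h := (1 / 2 : ℝ) ^ i) (by positivity)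
      (T * 2 ^ i) hef
    rw [hgrid] at h5
    refine h5.trans (mul_le_mul_of_nonneg_left ?_ (Real.exp_pos _).le)
    have h6 := ex_energy_le_ord hP hsymm hM0 hsum hM Λ J hfJ
    have h7 : (1 + 2 * (4 * M)) * (μ'.real {w | ∃ k : ℕ, k ≤ N * 2 ^ j ∧
        η (k * (1 / 2 : ℝ) ^ j) w ∈ O} + Real.exp (-N) + ε)
        ≤ (1 + 8 * M) * (μ'.real HO + Real.exp (-N) + ε) := by
      have h8 : 1 + 2 * (4 * M) = 1 + 8 * M := by ring
      rw [h8]
      refine mul_le_mul_of_nonneg_left ?_ (by positivity)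
      linarith
    linarith
  by_contra hcon
  push Not at hcon
  set C : ℝ := Real.exp T * (1 + 8 * M) with hC
  have hCpos : 0 < C := by positivity
  set gap : ℝ := μ.real {w | ∃ k : ℕ, k ≤ T * 2 ^ i ∧ ω (k * (1 / 2 : ℝ) ^ i) w ∈ O} -
    Real.exp T * ((1 + 8 * M) * (μ'.real HO + Real.exp (-N))) with hgap
  have hgap0 : 0 < gap := by rw [hgap]; linarith
  have h1 := hmain (gap / (2 * C)) (by positivity)
  have h2 : Real.exp T * ((1 + 8 * M) * (μ'.real HO + Real.exp (-N) + gap / (2 * C)))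
      = Real.exp T * ((1 + 8 * M) * (μ'.real HO + Real.exp (-N))) + gap / 2 := by
    have h3 : C * (gap / (2 * C)) = gap / 2 := by
      field_simp
    calc Real.exp T * ((1 + 8 * M) * (μ'.real HO + Real.exp (-N) + gap / (2 * C)))
        = Real.exp T * ((1 + 8 * M) * (μ'.real HO + Real.exp (-N))) + C * (gap / (2 * C)) := by
          rw [hC]; ring
      _ = _ := by rw [h3]
  rw [h2] at h1
  linarith

end Key

end Pool.Agent.TH601.EX
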