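import Pool.Agent.TH601.EX.Null
import Pool.Agent.TH601.EX.Cap

/-!
Exceptional times of the exclusion dynamics are exceptional times of ordinary dynamical
percolation.
-/

open MeasureTheory Filter Topology

set_option linter.unusedSectionVars false
set_option linter.unusedSimpArgs false

namespace Pool.Agent.TH601.EX

variable {I : Type*} [Countable I] [DecidableEq I]
variable {Ω : Type*} [MeasurableSpace Ω] {μ : Measure Ω} [IsProbabilityMeasure μ]
variable {ω : ℝ → Ω → (I → Bool)}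
variable {Ω' : Type*} [MeasurableSpace Ω'] {μ' : Measure Ω'} [IsProbabilityMeasure μ']
variable {η : ℝ → Ω' → (I → Bool)}

theorem polishConfig (I : Type*) [Countable I] : PolishSpace (I → Bool) := by
  have h1 : SecondCountableTopology (I → Bool) := inferInstance
  have h2 : TopologicalSpace.IsCompletelyMetrizableSpace (I → Bool) := inferInstance
  have h3 : TopologicalSpace.SeparableSpace (I → Bool) := inferInstance
  exact inferInstance

theorem hit_open_le {G : Finset I → (C(I → Bool, ℝ) →ₗ[ℝ] C(I → Bool, ℝ))}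
    (hω : IsDynamics G μ ω) {O : Set (I → Bool)} (hO : IsClopen O) (T : ℕ) {B : ℝ}
    (hB : ∀ i, μ.real {w | ∃ k : ℕ, k ≤ T * 2 ^ i ∧ ω (k * (1 / 2 : ℝ) ^ i) w ∈ O} ≤ B) :
    μ {w | ∃ t : ℝ, 0 ≤ t ∧ t ≤ T ∧ ω t w ∈ O} ≤ ENNReal.ofReal B := by
  set D : ℕ → Set Ω := fun i => {w | ∃ k : ℕ, k ≤ T * 2 ^ i ∧ ω (k * (1 / 2 : ℝ) ^ i) w ∈ O}
    with hD
  have hDmono : Monotone D := by
    refine monotone_nat_of_le_succ fun i => ?_
    rintro w ⟨k, hk, hw⟩
    refine ⟨2 * k, ?_, ?_⟩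
    · rw [pow_succ]
      calc 2 * k ≤ 2 * (T * 2 ^ i) := Nat.mul_le_mul_left 2 hk
        _ = T * (2 ^ i * 2) := by ring
    · have h1 : ((2 * k : ℕ) : ℝ) * (1 / 2 : ℝ) ^ (i + 1) = k * (1 / 2 : ℝ) ^ i := by
        push_cast
        rw [pow_succ]
        ring
      rw [h1]
      exact hw
  have hsub : ({w | ∃ t : ℝ, 0 ≤ t ∧ t ≤ T ∧ ω t w ∈ O} : Set Ω) ≤ᵐ[μ] ⋃ i, D i := by
    filter_upwards [hω.cadlag] with w hcad hw
    obtain ⟨t, ht0, htT, hw⟩ := hw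
    have h1 : ∀ᶠ s in 𝓝[≥] t, ω s w ∈ O := (hcad.1 t ht0).eventually (hO.isOpen.mem_nhds hw)
    obtain ⟨u, hu, hu2⟩ := mem_nhdsGE_iff_exists_Ico_subset.1 h1
    have hu' : t < u := hu
    obtain ⟨n, k, hk, hk2, hk3⟩ := grid_right ht0 htT (sub_pos.2 hu')
    refine Set.mem_iUnion.2 ⟨n, k, hk, ?_⟩
    exact hu2 ⟨hk2, by linarith⟩
  calc μ {w | ∃ t : ℝ, 0 ≤ t ∧ t ≤ T ∧ ω t w ∈ O} ≤ μ (⋃ i, D i) := measure_mono_ae hsub
    _ = ⨆ i, μ (D i) := hDmono.measure_iUnion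
    _ ≤ ENNReal.ofReal B := iSup_le fun i => by
        rw [← ofReal_measureReal (measure_ne_top μ (D i))]
        exact ENNReal.ofReal_le_ofReal (hB i)

theorem exceptional_main {P : I → I → ℝ} (hP : ∀ x y, 0 ≤ P x y)
    (hsymm : ∀ x y, P x y = P y x) {M : ℝ} (hsum : ∀ x, Summable (P x))
    (hM : ∀ x, ∑' y, P x y ≤ M) (hω : IsDynamics (exGen P) μ ω) (hη : IsDynamics ordGen μ' η)
    {A : Set (I → Bool)} (hA : MeasurableSet A)
    (hex : μ {w | ∃ t : ℝ, 0 ≤ t ∧ ω t w ∈ A} ≠ 0) :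
    μ' {w | ∃ t : ℝ, 0 ≤ t ∧ η t w ∈ A} ≠ 0 := by
  intro hη0
  set M' : ℝ := max M 0 with hM'def
  have hM'0 : 0 ≤ M' := le_max_right _ _
  have hM' : ∀ x, ∑' y, P x y ≤ M' := fun x => (hM x).trans (le_max_left _ _)
  -- a finite horizon
  have hT : ∃ T : ℕ, μ {w | ∃ t : ℝ, 0 ≤ t ∧ t ≤ T ∧ ω t w ∈ A} ≠ 0 := by
    by_contra hcon
    push Not at hcon
    apply hex
    refine measure_mono_null ?_ (measure_iUnion_null hcon)
    rintro w ⟨t, ht, hw⟩
    obtain ⟨T, hT⟩ := exists_nat_ge t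
    exact Set.mem_iUnion.2 ⟨T, t, ht, hT, hw⟩
  obtain ⟨T, hT⟩ := hT
  set c : Set (I → Bool) → ENNReal := fun S => μ {w | ∃ t : ℝ, 0 ≤ t ∧ t ≤ T ∧ ω t w ∈ S}
    with hc
  have hcA : 0 < c A := pos_iff_ne_zero.2 hT
  obtain ⟨ε, hε0, hεA⟩ := exists_between hcA
  have hcmono : Monotone c := by
    intro S S' hSS
    refine measure_mono ?_
    rintro w ⟨t, ht, htT, hw⟩
    exact ⟨t, ht, htT, hSS hw⟩
  have hccont : ∀ s : ℕ → Set (I → Bool), Monotone s → c (⋃ n, s n) = ⨆ n, c (s n) := by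
    intro s hs
    have h1 : Monotone fun n => {w | ∃ t : ℝ, 0 ≤ t ∧ t ≤ T ∧ ω t w ∈ s n} := by
      rintro a b hab w ⟨t, ht, htT, hw⟩
      exact ⟨t, ht, htT, hs hab hw⟩
    show μ _ = ⨆ n, μ _
    rw [← h1.measure_iUnion]
    congr 1
    ext w
    simp only [Set.mem_iUnion, Set.mem_setOf_eq]
    constructor
    · rintro ⟨t, ht, htT, n, hw⟩
      exact ⟨n, t, ht, htT, hw⟩
    · rintro ⟨n, t, ht, htT, hw⟩
      exact ⟨t, ht, htT, n, hw⟩
  have hcempty : c ∅ = 0 := by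
    show μ _ = 0
    simp
  have hPol : PolishSpace (I → Bool) := polishConfig I
  obtain ⟨K, hKA, hKc, hKV⟩ := capacitable hA.analyticSet c hcmono hccont hεA hcempty
  have hK : IsClosed K := hKc.isClosed
  have hKhit : μ' {w | ∃ t : ℝ, 0 ≤ t ∧ η t w ∈ K} = 0 := by
    refine measure_mono_null ?_ hη0
    rintro w ⟨t, ht, hw⟩
    exact ⟨t, ht, hKA hw⟩
  obtain ⟨J, hJm, hJ⟩ := exists_seq_monotone_tendsto_atTop_atTop (Finset I)
  have hkey : ∀ N n : ℕ, ε ≤ ENNReal.ofReal (Real.exp T * ((1 + 8 * M') *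
      (μ'.real (hitDy η (cyl (J n) K) N) + Real.exp (-N)))) := by
    intro N n
    refine (hKV _ (cyl_clopen (J n) K).isOpen (subset_cyl (J n) K)).le.trans ?_
    refine hit_open_le hω (cyl_clopen (J n) K) T fun i => ?_
    exact key_estimate hP hsymm hM'0 hsum hM' hω hη (cyl_clopen (J n) K) (ind_cyl_loc (J n) K)
      N T i
  have hkey2 : ∀ N : ℕ, ε ≤ ENNReal.ofReal (Real.exp T * ((1 + 8 * M') *
      (0 + Real.exp (-N)))) := by
    intro N
    have h1 := hitDy_tendsto hη hK hKhit N hJm hJ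
    have h2 := ((h1.add_const (Real.exp (-(N : ℝ)))).const_mul (1 + 8 * M')).const_mul
      (Real.exp (T : ℝ))
    have h3 := (ENNReal.continuous_ofReal.tendsto _).comp h2
    exact ge_of_tendsto' h3 fun n => hkey N n
  have h1 : Tendsto (fun N : ℕ => Real.exp (-(N : ℝ))) atTop (𝓝 0) :=
    Real.tendsto_exp_neg_atTop_nhds_zero.comp tendsto_natCast_atTop_atTop
  have h2 := ((h1.const_add 0).const_mul (1 + 8 * M')).const_mul (Real.exp (T : ℝ))
  have h3 := (ENNReal.continuous_ofReal.tendsto _).comp h2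
  have h4 := ge_of_tendsto' h3 hkey2
  rw [add_zero, mul_zero, mul_zero, ENNReal.ofReal_zero] at h4
  exact absurd hε0 (not_lt.2 h4)

end Pool.Agent.TH601.EX
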