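import Pool.Agent.TH601.EX.Semi

/-!
Abstract reversible Markov operators on `C(X, ℝ)`, `X` compact, with respect to a positive
normalised functional `m`, and the semigroups of bounded reversible generators.
-/

open Filter Topology

set_option linter.unusedSectionVars false
set_option linter.unusedSimpArgs false

namespace Pool.Agent.TH601.EX

variable {X : Type*} [TopologicalSpace X] [CompactSpace X]

/-- `m` is a state: a positive linear functional with `m 1 = 1`. -/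
structure IsState (m : C(X, ℝ) →ₗ[ℝ] ℝ) : Prop where
  pos : ∀ f, 0 ≤ f → 0 ≤ m f
  one : m 1 = 1

theorem le_apply {f g : C(X, ℝ)} (h : f ≤ g) (x : X) : f x ≤ g x := h x

theorem nonneg_apply {f : C(X, ℝ)} (h : 0 ≤ f) (x : X) : 0 ≤ f x := h x

theorem IsState.mono {m : C(X, ℝ) →ₗ[ℝ] ℝ} (hm : IsState m) {f g : C(X, ℝ)} (h : f ≤ g) :
    m f ≤ m g := by
  have h1 := hm.pos (g - f) (sub_nonneg.2 h)
  rw [map_sub] at h1
  linarith

theorem le_norm_smul_one (f : C(X, ℝ)) : f ≤ ‖f‖ • (1 : C(X, ℝ)) := by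
  intro x
  simpa using (le_abs_self _).trans (f.norm_coe_le_norm x)

theorem neg_norm_smul_one_le (f : C(X, ℝ)) : -(‖f‖ • (1 : C(X, ℝ))) ≤ f := by
  intro x
  have h := (neg_abs_le (f x)).trans' (neg_le_neg (f.norm_coe_le_norm x))
  simpa using h

theorem IsState.abs_le {m : C(X, ℝ) →ₗ[ℝ] ℝ} (hm : IsState m) (f : C(X, ℝ)) :
    |m f| ≤ ‖f‖ := by
  rw [_root_.abs_le]
  constructor
  · have h := hm.mono (neg_norm_smul_one_le f)
    rw [map_neg, map_smul, hm.one] at h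
    simpa using h
  · have h := hm.mono (le_norm_smul_one f)
    rw [map_smul, hm.one] at h
    simpa using h

theorem IsState.continuous {m : C(X, ℝ) →ₗ[ℝ] ℝ} (hm : IsState m) : Continuous m := by
  refine AddMonoidHomClass.continuous_of_bound m 1 fun f => ?_
  rw [one_mul, Real.norm_eq_abs]
  exact hm.abs_le f

/-- A reversible Markov operator. -/
structure IsMarkov (m : C(X, ℝ) →ₗ[ℝ] ℝ) (Q : C(X, ℝ) →L[ℝ] C(X, ℝ)) : Prop where
  pos : ∀ f, 0 ≤ f → 0 ≤ Q f
  one : Q 1 = 1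
  symm : ∀ f g, m (f * Q g) = m (Q f * g)

/-- A bounded reversible generator. -/
structure IsGen (m : C(X, ℝ) →ₗ[ℝ] ℝ) (G : C(X, ℝ) →L[ℝ] C(X, ℝ)) : Prop where
  pos : ∃ c : ℝ, ∀ f, 0 ≤ f → 0 ≤ G f + c • f
  one : G 1 = 0
  symm : ∀ f g, m (f * G g) = m (G f * g)

theorem IsMarkov.mono {m : C(X, ℝ) →ₗ[ℝ] ℝ} {Q : C(X, ℝ) →L[ℝ] C(X, ℝ)} (hQ : IsMarkov m Q)
    {f g : C(X, ℝ)} (h : f ≤ g) : Q f ≤ Q g := by
  have h1 := hQ.pos (g - f) (sub_nonneg.2 h)
  rw [map_sub] at h1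
  exact sub_nonneg.1 h1

theorem IsMarkov.norm_le {m : C(X, ℝ) →ₗ[ℝ] ℝ} {Q : C(X, ℝ) →L[ℝ] C(X, ℝ)} (hQ : IsMarkov m Q)
    (f : C(X, ℝ)) : ‖Q f‖ ≤ ‖f‖ := by
  rw [ContinuousMap.norm_le _ (norm_nonneg _)]
  intro x
  rw [Real.norm_eq_abs, abs_le]
  constructor
  · have h := hQ.mono (neg_norm_smul_one_le f) x
    rw [map_neg, map_smul, hQ.one] at h
    simpa using h
  · have h := hQ.mono (le_norm_smul_one f) x
    rw [map_smul, hQ.one] at h
    simpa using h

theorem sq_nonneg' (f : C(X, ℝ)) : 0 ≤ f * f := fun x => mul_self_nonneg (f x)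

/-- Jensen's inequality for squares. -/
theorem IsMarkov.sq_le {m : C(X, ℝ) →ₗ[ℝ] ℝ} {Q : C(X, ℝ) →L[ℝ] C(X, ℝ)} (hQ : IsMarkov m Q)
    (f : C(X, ℝ)) : Q f * Q f ≤ Q (f * f) := by
  intro x
  set c : ℝ := Q f x with hc
  have h1 : 0 ≤ Q ((f - c • 1) * (f - c • 1)) := hQ.pos _ (sq_nonneg' _)
  have h2 : (f - c • 1) * (f - c • 1) = f * f - (2 * c) • f + (c * c) • (1 : C(X, ℝ)) := by
    ext y
    simp
    ring
  rw [h2, map_add, map_sub, map_smul, map_smul, hQ.one] at h1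
  have h3 := nonneg_apply h1 x
  simp only [ContinuousMap.coe_zero, Pi.zero_apply, ContinuousMap.coe_add,
    ContinuousMap.coe_sub, Pi.add_apply, Pi.sub_apply, ContinuousMap.coe_smul, Pi.smul_apply,
    smul_eq_mul, ContinuousMap.coe_one, Pi.one_apply, mul_one] at h3
  show Q f x * Q f x ≤ Q (f * f) x
  rw [← hc] at h3 ⊢
  linarith

theorem IsMarkov.apply_one {m : C(X, ℝ) →ₗ[ℝ] ℝ} {Q : C(X, ℝ) →L[ℝ] C(X, ℝ)}
    (hQ : IsMarkov m Q) (f : C(X, ℝ)) : m (Q f) = m f := by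
  have h := hQ.symm 1 f
  rw [hQ.one, one_mul, one_mul] at h
  exact h

theorem IsMarkov.inner_le {m : C(X, ℝ) →ₗ[ℝ] ℝ} {Q : C(X, ℝ) →L[ℝ] C(X, ℝ)} (hm : IsState m)
    (hQ : IsMarkov m Q) (f : C(X, ℝ)) : m (f * Q f) ≤ m (f * f) := by
  have h1 : m (Q f * Q f) ≤ m (f * f) := by
    calc m (Q f * Q f) ≤ m (Q (f * f)) := hm.mono (hQ.sq_le f)
      _ = m (f * f) := hQ.apply_one _
  have h2 : 0 ≤ m ((f - Q f) * (f - Q f)) := hm.pos _ (sq_nonneg' _)
  have h3 : (f - Q f) * (f - Q f) = f * f - (2 : ℝ) • (f * Q f) + Q f * Q f := by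
    ext y
    simp
    ring
  rw [h3, map_add, map_sub, map_smul] at h2
  simp only [smul_eq_mul] at h2
  linarith

/-! ### Semigroups -/

/-- A closed subspace invariant under `A` is invariant under the semigroup. -/
theorem sg_mem (A : C(X, ℝ) →L[ℝ] C(X, ℝ)) (S : Submodule ℝ C(X, ℝ))
    (hS : IsClosed (S : Set C(X, ℝ))) (hA : ∀ f ∈ S, A f ∈ S) (t : ℝ)
    {f : C(X, ℝ)} (hf : f ∈ S) : sg A t f ∈ S := by
  have hpow : ∀ n : ℕ, (A ^ n) f ∈ S := by
    intro n
    induction n with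
    | zero => exact hf
    | succ n ih =>
      rw [pow_succ']
      exact hA _ ih
  have h := sg_hasSum A t f
  refine hS.mem_of_tendsto h (Eventually.of_forall fun s => ?_)
  exact S.sum_mem fun i _ => S.smul_mem _ (hpow i)

/-- Two operators that agree on an invariant subspace have the same semigroup there. -/
theorem sg_eq_on (A B : C(X, ℝ) →L[ℝ] C(X, ℝ)) (S : Submodule ℝ C(X, ℝ))
    (hA : ∀ f ∈ S, A f ∈ S) (hAB : ∀ f ∈ S, A f = B f) (t : ℝ)
    {f : C(X, ℝ)} (hf : f ∈ S) : sg A t f = sg B t f := by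
  have hpow : ∀ n : ℕ, (A ^ n) f ∈ S ∧ (A ^ n) f = (B ^ n) f := by
    intro n
    induction n with
    | zero => exact ⟨hf, rfl⟩
    | succ n ih =>
      rw [pow_succ', pow_succ']
      refine ⟨hA _ ih.1, ?_⟩
      show A ((A ^ n) f) = B ((B ^ n) f)
      rw [hAB _ ih.1, ih.2]
  have h := sg_hasSum A t f
  have h' := sg_hasSum B t f
  refine h.unique ?_
  convert h' using 3 with n
  exact (hpow n).2

theorem sg_fix {A : C(X, ℝ) →L[ℝ] C(X, ℝ)} {f : C(X, ℝ)} (hA : A f = 0) (t : ℝ) :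
    sg A t f = f := by
  have h := sg_hasSum A t f
  have h2 : HasSum (fun n : ℕ => (t ^ n / (n.factorial : ℝ)) • ((A ^ n) f))
      ((t ^ 0 / (Nat.factorial 0 : ℝ)) • ((A ^ 0) f)) := by
    refine hasSum_single 0 fun n hn => ?_
    obtain ⟨k, rfl⟩ := Nat.exists_eq_succ_of_ne_zero hn
    rw [pow_succ A k]
    show _ • (A ^ k) (A f) = 0
    rw [hA, map_zero, smul_zero]
  have h3 := h.unique h2
  rw [h3]
  simp

theorem sg_symm {m : C(X, ℝ) →ₗ[ℝ] ℝ} (hm : IsState m) {A : C(X, ℝ) →L[ℝ] C(X, ℝ)}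
    (hA : ∀ f g, m (f * A g) = m (A f * g)) (t : ℝ) (f g : C(X, ℝ)) :
    m (f * sg A t g) = m (sg A t f * g) := by
  have hmc := hm.continuous
  have hpow : ∀ n : ℕ, ∀ f g, m (f * (A ^ n) g) = m ((A ^ n) f * g) := by
    intro n
    induction n with
    | zero => intro f g; rfl
    | succ n ih =>
      intro f g
      rw [pow_succ]
      show m (f * (A ^ n) (A g)) = m ((A ^ n) (A f) * g)
      rw [ih, hA]
      have hcomm : A ((A ^ n) f) = (A ^ n) (A f) := by
        have : A * A ^ n = A ^ n * A := by rw [← pow_succ', ← pow_succ]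
        exact congrArg (fun T : C(X, ℝ) →L[ℝ] C(X, ℝ) => T f) this
      rw [hcomm]
  have h1 := sg_hasSum A t g
  have h2 := sg_hasSum A t f
  have h3 : HasSum (fun n : ℕ => m (f * ((t ^ n / (n.factorial : ℝ)) • ((A ^ n) g))))
      (m (f * sg A t g)) :=
    (h1.mul_left f).map m hmc
  have h4 : HasSum (fun n : ℕ => m (((t ^ n / (n.factorial : ℝ)) • ((A ^ n) f)) * g))
      (m (sg A t f * g)) :=
    (h2.mul_right g).map m hmc
  refine h3.unique ?_
  have h5 : (fun n : ℕ => m (f * ((t ^ n / (n.factorial : ℝ)) • ((A ^ n) g))))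
      = fun n : ℕ => m (((t ^ n / (n.factorial : ℝ)) • ((A ^ n) f)) * g) := by
    funext n
    rw [mul_smul_comm, smul_mul_assoc, map_smul, map_smul, hpow]
  rw [h5]
  exact h4

theorem IsGen.markov {m : C(X, ℝ) →ₗ[ℝ] ℝ} (hm : IsState m) {G : C(X, ℝ) →L[ℝ] C(X, ℝ)}
    (hG : IsGen m G) {t : ℝ} (ht : 0 ≤ t) : IsMarkov m (sg G t) where
  pos := by
    obtain ⟨c, hc⟩ := hG.pos
    exact sg_pos G hc ht
  one := sg_fix hG.one t
  symm := sg_symm hm hG.symm t

theorem sg_sub_le {m : C(X, ℝ) →ₗ[ℝ] ℝ} (hm : IsState m) {G : C(X, ℝ) →L[ℝ] C(X, ℝ)}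
    (hG : IsGen m G) {t : ℝ} (ht : 0 ≤ t) (f : C(X, ℝ)) :
    ‖sg G t f - f‖ ≤ t * ‖G f‖ := by
  have hder : ∀ s ∈ Set.Icc 0 t, HasDerivWithinAt (fun u : ℝ => sg G u f)
      (sg G s (G f)) (Set.Icc 0 t) s := fun s _ => (sg_hasDerivAt G s f).hasDerivWithinAt
  have h := norm_image_sub_le_of_norm_deriv_le_segment' hder (C := ‖G f‖) (fun s hs =>
    (hG.markov hm hs.1).norm_le _) t (Set.right_mem_Icc.2 ht)
  rw [sg_zero, sub_zero] at h
  rw [mul_comm]
  exact h

/-- The energy at time `h` is at most `h` times the Dirichlet form. -/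
theorem energy_le {m : C(X, ℝ) →ₗ[ℝ] ℝ} (hm : IsState m) {G : C(X, ℝ) →L[ℝ] C(X, ℝ)}
    (hG : IsGen m G) {h : ℝ} (hh : 0 < h) (f : C(X, ℝ)) :
    m (f * f) - m (f * sg G h f) ≤ h * (-(m (f * G f))) := by
  set a : ℝ → ℝ := fun t => m (f * sg G t f) with ha
  have ha0 : a 0 = m (f * f) := by
    simp only [ha, sg_zero]
  have hmid : ∀ s, 0 ≤ s → a 0 - a (2 * s) ≤ 2 * (a 0 - a s) := by
    intro s hs
    have hQ := hG.markov hm hs
    have h1 : a (2 * s) = m (sg G s f * sg G s f) := by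
      show m (f * sg G (2 * s) f) = _
      rw [two_mul, sg_add, hQ.symm]
    have h2 : 0 ≤ m ((f - sg G s f) * (f - sg G s f)) := hm.pos _ (sq_nonneg' _)
    have h3 : (f - sg G s f) * (f - sg G s f)
        = f * f - (2 : ℝ) • (f * sg G s f) + sg G s f * sg G s f := by
      ext y
      simp
      ring
    rw [h3, map_add, map_sub, map_smul, ← h1] at h2
    simp only [smul_eq_mul] at h2
    show a 0 - a (2 * s) ≤ 2 * (a 0 - m (f * sg G s f))
    rw [ha0]
    linarith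
  have hiter : ∀ n : ℕ, ∀ s, 0 ≤ s → a 0 - a (2 ^ n * s) ≤ 2 ^ n * (a 0 - a s) := by
    intro n
    induction n with
    | zero => intro s _; simp
    | succ n ih =>
      intro s hs
      have h1 := ih (2 * s) (by positivity)
      have h2 := hmid s hs
      have h3 : (2 : ℝ) ^ (n + 1) * s = 2 ^ n * (2 * s) := by ring
      rw [h3]
      have h4 : (2 : ℝ) ^ n * (a 0 - a (2 * s)) ≤ 2 ^ n * (2 * (a 0 - a s)) :=
        mul_le_mul_of_nonneg_left h2 (by positivity)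
      calc a 0 - a (2 ^ n * (2 * s)) ≤ 2 ^ n * (a 0 - a (2 * s)) := h1
        _ ≤ 2 ^ n * (2 * (a 0 - a s)) := h4
        _ = 2 ^ (n + 1) * (a 0 - a s) := by ring
  -- derivative
  have hexp : ∀ ε > 0, a 0 - a h ≤ h * (-(m (f * G f))) + ε * (h * (‖f‖ * ‖f‖)) := by
    intro ε hε
    have h1 := sg_expand G hε
    have h2 : Tendsto (fun n : ℕ => h * (1 / 2 : ℝ) ^ n) atTop (𝓝[>] 0) := by
      rw [tendsto_nhdsWithin_iff]
      constructor
      · have := (tendsto_pow_atTop_nhds_zero_of_lt_one (r := (1 / 2 : ℝ)) (by norm_num)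
          (by norm_num)).const_mul h
        simpa using this
      · exact Eventually.of_forall fun n => by
          show 0 < h * (1 / 2 : ℝ) ^ n
          positivity
    obtain ⟨n, hn⟩ := (h2.eventually h1).exists
    set δ : ℝ := h * (1 / 2 : ℝ) ^ n with hδ
    have hδpos : 0 < δ := by positivity
    have h3 : (2 : ℝ) ^ n * δ = h := by
      rw [hδ, mul_comm h, ← mul_assoc, ← mul_pow]
      norm_num
    have h4 := hiter n δ hδpos.le
    rw [h3] at h4
    have h5 : a 0 - a δ ≤ δ * (-(m (f * G f))) + ε * δ * (‖f‖ * ‖f‖) := by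
      have h6 : a δ = m (f * f) + δ * m (f * G f) + m (f * (sg G δ f - f - δ • G f)) := by
        have h61 : f * sg G δ f = f * f + δ • (f * G f) + f * (sg G δ f - f - δ • G f) := by
          ext y
          simp
          ring
        show m (f * sg G δ f) = _
        rw [h61, map_add, map_add, map_smul, smul_eq_mul]
      have h7 : |m (f * (sg G δ f - f - δ • G f))| ≤ ε * δ * (‖f‖ * ‖f‖) := by
        refine (hm.abs_le _).trans ((norm_mul_le _ _).trans ?_)
        calc ‖f‖ * ‖sg G δ f - f - δ • G f‖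
            ≤ ‖f‖ * (ε * δ * ‖f‖) := mul_le_mul_of_nonneg_left (hn f) (norm_nonneg _)
          _ = ε * δ * (‖f‖ * ‖f‖) := by ring
      have h8 := neg_abs_le (m (f * (sg G δ f - f - δ • G f)))
      rw [h6, ha0]
      linarith
    calc a 0 - a h ≤ 2 ^ n * (a 0 - a δ) := h4
      _ ≤ 2 ^ n * (δ * (-(m (f * G f))) + ε * δ * (‖f‖ * ‖f‖)) :=
        mul_le_mul_of_nonneg_left h5 (by positivity)
      _ = (2 ^ n * δ) * (-(m (f * G f))) + ε * ((2 ^ n * δ) * (‖f‖ * ‖f‖)) := by ring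
      _ = _ := by rw [h3]
  rw [← ha0]
  show a 0 - a h ≤ _
  by_contra hcon
  push Not at hcon
  set K : ℝ := h * (‖f‖ * ‖f‖) with hK
  have hK0 : 0 ≤ K := by positivity
  set gap : ℝ := (a 0 - a h) - h * (-(m (f * G f))) with hgap
  have hgap0 : 0 < gap := by rw [hgap]; linarith
  have h1 := hexp (gap / (2 * (K + 1))) (by positivity)
  have h2 : gap / (2 * (K + 1)) * K ≤ gap / 2 := by
    rw [div_mul_eq_mul_div, div_le_div_iff₀ (by positivity) (by norm_num)]
    nlinarith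
  have h3 : a 0 - a h = gap + h * (-(m (f * G f))) := by rw [hgap]; ring
  rw [h3] at h1
  linarith

end Pool.Agent.TH601.EX
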