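import Pool.Agent.TH601.EX.Jump

/-!
For the independent dynamics: if a compact set is not hit, the hitting probabilities of its
cylinder neighbourhoods tend to zero.
-/

open MeasureTheory Filter Topology

set_option linter.unusedSectionVars false
set_option linter.unusedSimpArgs false

namespace Pool.Agent.TH601.EX

variable {I : Type*} [Countable I] [DecidableEq I]
variable {Ω : Type*} [MeasurableSpace Ω] {μ : Measure Ω} [IsProbabilityMeasure μ]
variable {η : ℝ → Ω → (I → Bool)}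

/-- a bit at `x` changes at a time where the left limit is in `K` -/
def badSet (η : ℝ → Ω → (I → Bool)) (K : Set (I → Bool)) (N : ℕ) (x : I) : Set Ω :=
  {w | (∀ t, 0 ≤ t → Tendsto (fun s => η s w) (𝓝[≥] t) (𝓝 (η t w))) ∧
    ∃ t : ℝ, 0 < t ∧ t ≤ N ∧ ∃ b ∈ K, Tendsto (fun s => η s w) (𝓝[<] t) (𝓝 b) ∧ b x ≠ η t w x}

theorem bad_le (x : I) {C : ℝ}
    (hC : ∀ (O : Set (I → Bool)) (hO : IsClopen O) (s h : ℝ), 0 ≤ s → 0 ≤ h →
      μ.real {w | η s w ∈ O ∧ η s w x ≠ η (s + h) w x} ≤ C * h * mfair I (ind O hO))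
    {K O : Set (I → Bool)} (hO : IsClopen O) (hKO : K ⊆ O) (N : ℕ) :
    μ (badSet η K N x) ≤ ENNReal.ofReal (N * C * mfair I (ind O hO)) := by
  set p : ℝ := mfair I (ind O hO) with hp
  set D : ℕ → Set Ω := fun n => ⋃ k ∈ Finset.range (N * 2 ^ n),
    {w | η (k * (1 / 2 : ℝ) ^ n) w ∈ O ∧
      η (k * (1 / 2 : ℝ) ^ n) w x ≠ η (k * (1 / 2 : ℝ) ^ n + (1 / 2 : ℝ) ^ n) w x} with hD
  have hDle : ∀ n, μ (D n) ≤ ENNReal.ofReal (N * C * p) := by
    intro n
    have h1 : μ.real (D n) ≤ N * C * p := by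
      calc μ.real (D n) ≤ ∑ k ∈ Finset.range (N * 2 ^ n),
            μ.real {w | η (k * (1 / 2 : ℝ) ^ n) w ∈ O ∧
              η (k * (1 / 2 : ℝ) ^ n) w x ≠ η (k * (1 / 2 : ℝ) ^ n + (1 / 2 : ℝ) ^ n) w x} :=
            measureReal_biUnion_finset_le _ _
        _ ≤ ∑ k ∈ Finset.range (N * 2 ^ n), C * (1 / 2 : ℝ) ^ n * p :=
            Finset.sum_le_sum fun k _ => hC O hO _ _ (by positivity) (by positivity)
        _ = N * C * p := by
            rw [Finset.sum_const, Finset.card_range, nsmul_eq_mul]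
            push_cast
            have h2 : (2 : ℝ) ^ n * (1 / 2 : ℝ) ^ n = 1 := by
              rw [← mul_pow]
              norm_num
            calc (N : ℝ) * 2 ^ n * (C * (1 / 2 : ℝ) ^ n * p)
                = N * C * p * (2 ^ n * (1 / 2 : ℝ) ^ n) := by ring
              _ = N * C * p := by rw [h2, mul_one]
    rw [← ofReal_measureReal (measure_ne_top μ (D n))]
    exact ENNReal.ofReal_le_ofReal h1
  set A : ℕ → Set Ω := fun j => {w | ∀ n, j ≤ n → w ∈ D n} with hA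
  have hAmono : Monotone A := fun i j hij w hw n hn => hw n (hij.trans hn)
  have hsub : badSet η K N x ⊆ ⋃ j, A j := by
    rintro w ⟨hrc, t, ht0, htN, b, hbK, hlim, hbx⟩
    have hbO : b ∈ O := hKO hbK
    -- left neighbourhood
    have h1 : ∀ᶠ s in 𝓝[<] t, η s w ∈ O ∧ η s w x = b x :=
      (hlim.eventually (hO.isOpen.mem_nhds hbO)).and (eventually_coord hlim x)
    have h2 : ∀ᶠ s in 𝓝[≥] t, η s w x = η t w x := eventually_coord (hrc t ht0.le) x
    obtain ⟨l, hl, hl2⟩ := mem_nhdsLT_iff_exists_Ioo_subset.1 h1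
    obtain ⟨u, hu, hu2⟩ := mem_nhdsGE_iff_exists_Ico_subset.1 h2
    have hl' : l < t := hl
    have hu' : t < u := hu
    have hδ : 0 < min (t - l) (u - t) := lt_min (by linarith) (by linarith)
    obtain ⟨j, hj⟩ := eventually_atTop.1 (grid_jump ht0 htN hδ)
    refine Set.mem_iUnion.2 ⟨j, fun n hn => ?_⟩
    obtain ⟨k, hk1, hk2, hk3, hk4, hk5⟩ := hj n hn
    have hδ1 : min (t - l) (u - t) ≤ t - l := min_le_left _ _
    have hδ2 : min (t - l) (u - t) ≤ u - t := min_le_right _ _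
    have h3 := hl2 (show (k : ℝ) * (1 / 2 : ℝ) ^ n ∈ Set.Ioo l t from ⟨by linarith, hk3⟩)
    have h4 : η (k * (1 / 2 : ℝ) ^ n + (1 / 2 : ℝ) ^ n) w x = η t w x :=
      hu2 (show (k : ℝ) * (1 / 2 : ℝ) ^ n + (1 / 2 : ℝ) ^ n ∈ Set.Ico t u from
        ⟨hk4, by linarith⟩)
    refine Set.mem_iUnion₂.2 ⟨k, Finset.mem_range.2 hk1, h3.1, ?_⟩
    rw [h4, h3.2]
    exact hbx
  calc μ (badSet η K N x) ≤ μ (⋃ j, A j) := measure_mono hsub
    _ = ⨆ j, μ (A j) := hAmono.measure_iUnion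
    _ ≤ ENNReal.ofReal (N * C * p) := iSup_le fun j =>
        (measure_mono (show A j ⊆ D j from fun w hw => hw j le_rfl)).trans (hDle j)

theorem small_cyl (hη : IsDynamics ordGen μ η) {K : Set (I → Bool)} (hK : IsClosed K)
    (hK0 : μ {w | η 0 w ∈ K} = 0) {J : ℕ → Finset I} (hJm : Monotone J)
    (hJ : Tendsto J atTop atTop) :
    Tendsto (fun n => mfair I (ind (cyl (J n) K) (cyl_clopen (J n) K))) atTop (𝓝 0) := by
  have h1 : ∀ n, mfair I (ind (cyl (J n) K) (cyl_clopen (J n) K))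
      = μ.real {w | η 0 w ∈ cyl (J n) K} :=
    fun n => (law_zero hη ordGen_eq (cyl_clopen (J n) K)).symm
  simp only [h1]
  have h2 : Tendsto (fun n => μ {w | η 0 w ∈ cyl (J n) K}) atTop
      (𝓝 (μ (⋂ n, {w | η 0 w ∈ cyl (J n) K}))) := by
    refine tendsto_measure_iInter_atTop (fun n => ?_) ?_ ⟨0, measure_ne_top _ _⟩
    · exact ((hη.measurable 0 le_rfl) (cyl_clopen (J n) K).isOpen.measurableSet).nullMeasurableSet
    · intro a b hab w hw
      exact cyl_anti (hJm hab) K hw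
  have h3 : μ (⋂ n, {w | η 0 w ∈ cyl (J n) K}) = 0 := by
    refine measure_mono_null (fun w hw => ?_) hK0
    exact iInter_cyl hK hJ fun n => Set.mem_iInter.1 hw n
  rw [h3] at h2
  have h4 := (ENNReal.tendsto_toReal ENNReal.zero_ne_top).comp h2
  rw [ENNReal.toReal_zero] at h4
  exact h4

theorem bad_null (hη : IsDynamics ordGen μ η) {K : Set (I → Bool)} (hK : IsClosed K)
    (hK0 : μ {w | η 0 w ∈ K} = 0) (N : ℕ) (x : I) : μ (badSet η K N x) = 0 := by
  obtain ⟨C, hC0, hC⟩ := jump_prob hη x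
  obtain ⟨J, hJm, hJ⟩ := exists_seq_monotone_tendsto_atTop_atTop (Finset I)
  have h1 := small_cyl hη hK hK0 hJm hJ
  have h2 := (h1.const_mul (N * C : ℝ))
  rw [mul_zero] at h2
  have h3 := (ENNReal.continuous_ofReal.tendsto 0).comp h2
  rw [ENNReal.ofReal_zero] at h3
  refine le_antisymm (ge_of_tendsto' h3 fun n => ?_) zero_le'
  exact bad_le x hC (cyl_clopen (J n) K) (subset_cyl (J n) K) N

/-- the event that `O` is visited at a dyadic time in `[0, N]` -/
def hitDy (η : ℝ → Ω → (I → Bool)) (O : Set (I → Bool)) (N : ℕ) : Set Ω :=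
  {w | ∃ j k : ℕ, k ≤ N * 2 ^ j ∧ η (k * (1 / 2 : ℝ) ^ j) w ∈ O}

theorem hitDy_meas (hη : IsDynamics ordGen μ η) {O : Set (I → Bool)} (hO : IsClopen O) (N : ℕ) :
    MeasurableSet (hitDy η O N) := by
  have h1 : hitDy η O N = ⋃ j : ℕ, {w | ∃ k : ℕ, k ≤ N * 2 ^ j ∧
      η (k * (1 / 2 : ℝ) ^ j) w ∈ O} := by
    ext w
    simp [hitDy]
  rw [h1]
  exact MeasurableSet.iUnion fun j => meas_hit hη hO (by positivity) _

theorem hitDy_tendsto (hη : IsDynamics ordGen μ η) {K : Set (I → Bool)} (hK : IsClosed K)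
    (hKhit : μ {w | ∃ t : ℝ, 0 ≤ t ∧ η t w ∈ K} = 0) (N : ℕ) {J : ℕ → Finset I}
    (hJm : Monotone J) (hJ : Tendsto J atTop atTop) :
    Tendsto (fun n => μ.real (hitDy η (cyl (J n) K) N)) atTop (𝓝 0) := by
  have hK0 : μ {w | η 0 w ∈ K} = 0 :=
    measure_mono_null (show {w | η 0 w ∈ K} ⊆ {w | ∃ t : ℝ, 0 ≤ t ∧ η t w ∈ K} from
      fun w hw => ⟨0, le_rfl, hw⟩) hKhit
  have h2 : Tendsto (fun n => μ (hitDy η (cyl (J n) K) N)) atTop
      (𝓝 (μ (⋂ n, hitDy η (cyl (J n) K) N))) := by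
    refine tendsto_measure_iInter_atTop (fun n => ?_) ?_ ⟨0, measure_ne_top _ _⟩
    · exact (hitDy_meas hη (cyl_clopen (J n) K) N).nullMeasurableSet
    · rintro a b hab w ⟨j, k, hk, hw⟩
      exact ⟨j, k, hk, cyl_anti (hJm hab) K hw⟩
  have h3 : μ (⋂ n, hitDy η (cyl (J n) K) N) = 0 := by
    have hnull : μ ({w | ∃ t : ℝ, 0 ≤ t ∧ η t w ∈ K} ∪ ⋃ x : I, badSet η K N x) = 0 :=
      measure_union_null hKhit (measure_iUnion_null fun x => bad_null hη hK hK0 N x)
    refine le_antisymm ?_ zero_le'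
    rw [← hnull]
    refine measure_mono_ae ?_
    filter_upwards [hη.cadlag] with w hcad hw
    have hw' : ∀ n, ∃ j k : ℕ, k ≤ N * 2 ^ j ∧ η (k * (1 / 2 : ℝ) ^ j) w ∈ cyl (J n) K :=
      fun n => Set.mem_iInter.1 hw n
    choose j k hk hmem using hw'
    set t : ℕ → ℝ := fun n => k n * (1 / 2 : ℝ) ^ (j n) with ht
    have ht01 : ∀ n, t n ∈ Set.Icc (0 : ℝ) N := by
      intro n
      refine ⟨by positivity, ?_⟩
      have h4 : (k n : ℝ) ≤ N * 2 ^ (j n) := by exact_mod_cast hk n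
      calc t n ≤ N * 2 ^ (j n) * (1 / 2 : ℝ) ^ (j n) :=
            mul_le_mul_of_nonneg_right h4 (by positivity)
        _ = N := by
            rw [mul_assoc, ← mul_pow]
            norm_num
    obtain ⟨t0, ht0, hlim⟩ := isCompact_Icc.ultrafilter_le_nhds ((hyperfilter ℕ).map t)
      (by
        rw [le_principal_iff]
        exact Filter.mem_map.2 (Filter.univ_mem' ht01))
    have htlim : Tendsto t (hyperfilter ℕ : Filter ℕ) (𝓝 t0) := hlim
    have hJU : Tendsto J (hyperfilter ℕ : Filter ℕ) atTop :=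
      hJ.mono_left Nat.hyperfilter_le_atTop
    rcases Ultrafilter.em (hyperfilter ℕ) (fun n => t0 ≤ t n) with hge | hlt
    · left
      refine ⟨t0, ht0.1, ?_⟩
      have h4 : Tendsto t (hyperfilter ℕ : Filter ℕ) (𝓝[≥] t0) :=
        tendsto_nhdsWithin_iff.2 ⟨htlim, hge⟩
      exact mem_of_cyl hK hJU ((hcad.1 t0 ht0.1).comp h4) hmem
    · have h4 : Tendsto t (hyperfilter ℕ : Filter ℕ) (𝓝[<] t0) :=
        tendsto_nhdsWithin_iff.2 ⟨htlim, hlt.mono fun n hn => not_le.1 hn⟩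
      have ht0pos : 0 < t0 := by
        obtain ⟨n, hn⟩ := hlt.exists
        exact (ht01 n).1.trans_lt (not_le.1 hn)
      obtain ⟨b, hb⟩ := hcad.2 t0 ht0pos
      have hbK : b ∈ K := mem_of_cyl hK hJU (hb.comp h4) hmem
      by_cases hbt : b = η t0 w
      · left
        exact ⟨t0, ht0.1, hbt ▸ hbK⟩
      · right
        obtain ⟨x, hx⟩ := Function.ne_iff.1 hbt
        exact Set.mem_iUnion.2 ⟨x, hcad.1, t0, ht0pos, ht0.2, b, hbK, hb, hx⟩
  rw [h3] at h2
  have h4 := (ENNReal.tendsto_toReal ENNReal.zero_ne_top).comp h2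
  rw [ENNReal.toReal_zero] at h4
  exact h4

end Pool.Agent.TH601.EX
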