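import Pool.Agent.TH601.EX.Markov

/-!
Discrete potential theory for a reversible Markov operator `Q`: hitting probabilities of an
idempotent `e` (the indicator of a clopen set), the `α`-equilibrium potential and its
variational characterisation.
-/

open Filter Topology

set_option linter.unusedSectionVars false
set_option linter.unusedSimpArgs false

namespace Pool.Agent.TH601.EX

variable {X : Type*} [TopologicalSpace X] [CompactSpace X]

/-- `w n` = probability of avoiding `e` at the times `0, …, n`. -/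
noncomputable def avoid (Q : C(X, ℝ) →L[ℝ] C(X, ℝ)) (e : C(X, ℝ)) : ℕ → C(X, ℝ)
  | 0 => 1 - e
  | n + 1 => (1 - e) * Q (avoid Q e n)

/-- an indicator -/
def IsIdem (e : C(X, ℝ)) : Prop := ∀ x, e x = 0 ∨ e x = 1

theorem IsIdem.nonneg {e : C(X, ℝ)} (he : IsIdem e) : 0 ≤ e := by
  intro x
  show 0 ≤ e x
  rcases he x with h | h <;> rw [h] <;> norm_num

theorem IsIdem.le_one {e : C(X, ℝ)} (he : IsIdem e) : e ≤ 1 := by
  intro x
  show e x ≤ 1
  rcases he x with h | h <;> rw [h] <;> norm_num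

theorem avoid_mem {m : C(X, ℝ) →ₗ[ℝ] ℝ} {Q : C(X, ℝ) →L[ℝ] C(X, ℝ)} (hQ : IsMarkov m Q)
    {e : C(X, ℝ)} (he : IsIdem e) (n : ℕ) : 0 ≤ avoid Q e n ∧ avoid Q e n ≤ 1 := by
  induction n with
  | zero =>
    constructor
    · exact sub_nonneg.2 he.le_one
    · exact sub_le_self _ he.nonneg
  | succ n ih =>
    have h1 := hQ.pos _ ih.1
    have h2 := hQ.mono ih.2
    rw [hQ.one] at h2
    constructor
    · intro x
      have h3 := nonneg_apply h1 x
      have h4 := le_apply he.le_one x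
      show 0 ≤ (1 - e x) * Q (avoid Q e n) x
      exact mul_nonneg (sub_nonneg.2 h4) h3
    · intro x
      have h3 := nonneg_apply h1 x
      have h4 := le_apply he.le_one x
      have h5 := le_apply h2 x
      have h6 := nonneg_apply he.nonneg x
      show (1 - e x) * Q (avoid Q e n) x ≤ 1
      have h7 : (1 : C(X, ℝ)) x = 1 := rfl
      rw [h7] at h4 h5
      nlinarith

/-- The map whose fixed point is the `α`-potential. -/
noncomputable def potMap (Q : C(X, ℝ) →L[ℝ] C(X, ℝ)) (e : C(X, ℝ)) (α : ℝ) (f : C(X, ℝ)) :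
    C(X, ℝ) := e + α • ((1 - e) * Q f)

theorem exists_pot {m : C(X, ℝ) →ₗ[ℝ] ℝ} {Q : C(X, ℝ) →L[ℝ] C(X, ℝ)}
    (hQ : IsMarkov m Q) {e : C(X, ℝ)} (he : IsIdem e) {α : ℝ} (hα0 : 0 < α) (hα1 : α < 1)
    (C : Set C(X, ℝ)) (hC : IsClosed C) (h0 : (0 : C(X, ℝ)) ∈ C)
    (hT : ∀ f ∈ C, potMap Q e α f ∈ C) :
    ∃ u ∈ C, 0 ≤ u ∧ u ≤ 1 ∧ u = e + α • ((1 - e) * Q u) := by
  have hcontr : ContractingWith ⟨α, hα0.le⟩ (potMap Q e α) := by
    refine ⟨by exact_mod_cast hα1, ?_⟩
    refine LipschitzWith.of_dist_le_mul fun f g => ?_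
    rw [dist_eq_norm, dist_eq_norm]
    have h1 : potMap Q e α f - potMap Q e α g = α • ((1 - e) * Q (f - g)) := by
      unfold potMap
      rw [map_sub]
      ext x
      simp
      ring
    rw [h1, norm_smul, Real.norm_of_nonneg hα0.le]
    show α * ‖(1 - e) * Q (f - g)‖ ≤ α * ‖f - g‖
    refine mul_le_mul_of_nonneg_left ?_ hα0.le
    refine (norm_mul_le _ _).trans ?_
    have h2 : ‖(1 - e : C(X, ℝ))‖ ≤ 1 := by
      rw [ContinuousMap.norm_le _ zero_le_one]
      intro x
      have h3 := le_apply he.le_one x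
      have h4 := nonneg_apply he.nonneg x
      have h7 : (1 : C(X, ℝ)) x = 1 := rfl
      rw [h7] at h3
      show |1 - e x| ≤ 1
      rw [abs_le]
      constructor <;> linarith
    calc ‖(1 - e : C(X, ℝ))‖ * ‖Q (f - g)‖ ≤ 1 * ‖f - g‖ :=
          mul_le_mul h2 (hQ.norm_le _) (norm_nonneg _) zero_le_one
      _ = ‖f - g‖ := one_mul _
  set u : C(X, ℝ) := ContractingWith.fixedPoint (potMap Q e α) hcontr with hu
  have hfix : potMap Q e α u = u := hcontr.fixedPoint_isFixedPt
  have hlim : Tendsto (fun n => (potMap Q e α)^[n] 0) atTop (𝓝 u) :=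
    hcontr.tendsto_iterate_fixedPoint 0
  have hclosed : ∀ D : Set C(X, ℝ), IsClosed D → (0 : C(X, ℝ)) ∈ D →
      (∀ f ∈ D, potMap Q e α f ∈ D) → u ∈ D := by
    intro D hD h0 hT
    refine hD.mem_of_tendsto hlim (Eventually.of_forall fun n => ?_)
    induction n with
    | zero => exact h0
    | succ n ih =>
      rw [Function.iterate_succ_apply']
      exact hT _ ih
  have hpos : u ∈ Set.Icc (0 : C(X, ℝ)) 1 := by
    have hcl : IsClosed (Set.Icc (0 : C(X, ℝ)) 1) := by
      have h1 : Set.Icc (0 : C(X, ℝ)) 1 = ⋂ x : X, {f : C(X, ℝ) | f x ∈ Set.Icc (0 : ℝ) 1} := by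
        ext f
        simp only [Set.mem_iInter, Set.mem_setOf_eq]
        exact ⟨fun h x => ⟨h.1 x, h.2 x⟩, fun h => ⟨fun x => (h x).1, fun x => (h x).2⟩⟩
      rw [h1]
      exact isClosed_iInter fun x => isClosed_Icc.preimage (continuous_eval_const x)
    refine hclosed _ hcl ⟨le_rfl, fun x => zero_le_one⟩ ?_
    intro f hf
    have h1 := hQ.pos _ hf.1
    have h2 := hQ.mono hf.2
    rw [hQ.one] at h2
    constructor
    · intro x
      have h3 := nonneg_apply h1 x
      have h4 := le_apply he.le_one x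
      have h6 := nonneg_apply he.nonneg x
      have h7 : (1 : C(X, ℝ)) x = 1 := rfl
      rw [h7] at h4
      show 0 ≤ e x + α * ((1 - e x) * Q f x)
      have h8 : 0 ≤ (1 - e x) * Q f x := mul_nonneg (sub_nonneg.2 h4) h3
      positivity
    · intro x
      have h3 := nonneg_apply h1 x
      have h4 := le_apply he.le_one x
      have h5 := le_apply h2 x
      have h6 := nonneg_apply he.nonneg x
      have h7 : (1 : C(X, ℝ)) x = 1 := rfl
      rw [h7] at h4 h5
      show e x + α * ((1 - e x) * Q f x) ≤ 1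
      have h8 : (1 - e x) * Q f x ≤ (1 - e x) * 1 :=
        mul_le_mul_of_nonneg_left h5 (sub_nonneg.2 h4)
      have h9 : 0 ≤ (1 - e x) * Q f x := mul_nonneg (sub_nonneg.2 h4) h3
      nlinarith
  exact ⟨u, hclosed C hC h0 hT, hpos.1, hpos.2, hfix.symm⟩

section Pot

variable {m : C(X, ℝ) →ₗ[ℝ] ℝ} {Q : C(X, ℝ) →L[ℝ] C(X, ℝ)} {e u : C(X, ℝ)} {α : ℝ}

/-- `α^n (1 - w n) ≤ u`. -/
theorem avoid_le_pot (hQ : IsMarkov m Q) (he : IsIdem e) (hα0 : 0 < α) (hα1 : α < 1)
    (hu0 : 0 ≤ u) (hu : u = e + α • ((1 - e) * Q u)) (n : ℕ) :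
    (α ^ n) • (1 - avoid Q e n) ≤ u := by
  induction n with
  | zero =>
    intro x
    have h1 := nonneg_apply (hQ.pos _ hu0) x
    have h2 : u x = e x + α * ((1 - e x) * Q u x) := congrArg (fun f : C(X, ℝ) => f x) hu
    have h4 := le_apply he.le_one x
    have h7 : (1 : C(X, ℝ)) x = 1 := rfl
    rw [h7] at h4
    show α ^ 0 * (1 - (1 - e x)) ≤ u x
    rw [h2, pow_zero]
    have h8 : 0 ≤ (1 - e x) * Q u x := mul_nonneg (sub_nonneg.2 h4) h1
    have h9 : 0 ≤ α * ((1 - e x) * Q u x) := by positivity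
    linarith
  | succ n ih =>
    intro x
    have h1 := hQ.mono ih
    rw [map_smul, map_sub, hQ.one] at h1
    have h2 : u x = e x + α * ((1 - e x) * Q u x) := congrArg (fun f : C(X, ℝ) => f x) hu
    have h3 : α ^ n * (1 - Q (avoid Q e n) x) ≤ Q u x := le_apply h1 x
    have h4 := le_apply he.le_one x
    have h6 := nonneg_apply he.nonneg x
    have h7 : (1 : C(X, ℝ)) x = 1 := rfl
    rw [h7] at h4
    show α ^ (n + 1) * (1 - (1 - e x) * Q (avoid Q e n) x) ≤ u x
    rw [h2]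
    have h8 : (1 - e x) * (α ^ n * (1 - Q (avoid Q e n) x)) ≤ (1 - e x) * Q u x :=
      mul_le_mul_of_nonneg_left h3 (sub_nonneg.2 h4)
    have h9 : α ^ (n + 1) ≤ 1 := pow_le_one₀ hα0.le hα1.le
    have h10 : α ^ (n + 1) * e x ≤ 1 * e x := mul_le_mul_of_nonneg_right h9 h6
    have h11 : α ^ (n + 1) * (1 - (1 - e x) * Q (avoid Q e n) x)
        = α ^ (n + 1) * e x + α * ((1 - e x) * (α ^ n * (1 - Q (avoid Q e n) x))) := by
      rw [pow_succ]
      ring
    rw [h11]
    have h12 := mul_le_mul_of_nonneg_left h8 hα0.le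
    linarith

/-- `u ≤ 1 - w n + α^n`. -/
theorem pot_le_avoid (hQ : IsMarkov m Q) (he : IsIdem e) (hα0 : 0 < α) (hα1 : α < 1)
    (hu1 : u ≤ 1) (hu : u = e + α • ((1 - e) * Q u)) (n : ℕ) :
    u ≤ 1 - avoid Q e n + (α ^ n) • 1 := by
  induction n with
  | zero =>
    intro x
    have h1 := le_apply hu1 x
    have h6 := nonneg_apply he.nonneg x
    have h7 : (1 : C(X, ℝ)) x = 1 := rfl
    rw [h7] at h1
    show u x ≤ 1 - (1 - e x) + α ^ 0 * 1
    rw [pow_zero]
    linarith
  | succ n ih =>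
    intro x
    have h1 := hQ.mono ih
    rw [map_add, map_smul, map_sub, hQ.one] at h1
    have h2 : u x = e x + α * ((1 - e x) * Q u x) := congrArg (fun f : C(X, ℝ) => f x) hu
    have h3 : Q u x ≤ 1 - Q (avoid Q e n) x + α ^ n * 1 := le_apply h1 x
    have h4 := le_apply he.le_one x
    have h6 := nonneg_apply he.nonneg x
    have h7 : (1 : C(X, ℝ)) x = 1 := rfl
    rw [h7] at h4
    show u x ≤ 1 - (1 - e x) * Q (avoid Q e n) x + α ^ (n + 1) * 1
    have hb := hQ.mono (avoid_mem hQ he n).2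
    rw [hQ.one] at hb
    have hb' : Q (avoid Q e n) x ≤ 1 := le_apply hb x
    rw [h2]
    have h8 : (1 - e x) * Q u x ≤ (1 - e x) * (1 - Q (avoid Q e n) x + α ^ n * 1) :=
      mul_le_mul_of_nonneg_left h3 (sub_nonneg.2 h4)
    have h9 := mul_le_mul_of_nonneg_left h8 hα0.le
    have h10 : 0 ≤ (1 - e x) * (1 - Q (avoid Q e n) x) :=
      mul_nonneg (sub_nonneg.2 h4) (sub_nonneg.2 hb')
    have h11 : α * ((1 - e x) * (1 - Q (avoid Q e n) x)) ≤
        1 * ((1 - e x) * (1 - Q (avoid Q e n) x)) := mul_le_mul_of_nonneg_right hα1.le h10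
    have h12 : 0 ≤ α ^ (n + 1) * e x := by positivity
    have h13 : α * ((1 - e x) * (1 - Q (avoid Q e n) x + α ^ n * 1))
        = α * ((1 - e x) * (1 - Q (avoid Q e n) x)) + α ^ (n + 1) - α ^ (n + 1) * e x := by
      rw [pow_succ]
      ring
    linarith

theorem pot_mul (he : IsIdem e) (hu : u = e + α • ((1 - e) * Q u)) : e * u = e := by
  ext x
  have h2 : u x = e x + α * ((1 - e x) * Q u x) := congrArg (fun f : C(X, ℝ) => f x) hu
  show e x * u x = e x
  rcases he x with h | h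
  · rw [h, zero_mul]
  · rw [h2, h]
    ring

theorem pot_eq (he : IsIdem e) (hu : u = e + α • ((1 - e) * Q u)) :
    u - α • Q u = e * (u - α • Q u) := by
  ext x
  have h2 : u x = e x + α * ((1 - e x) * Q u x) := congrArg (fun f : C(X, ℝ) => f x) hu
  show u x - α * Q u x = e x * (u x - α * Q u x)
  rcases he x with h | h
  · rw [h2, h]
    ring
  · rw [h]
    ring

/-- `(1 - α) m u = m (u (u - αQu))`. -/
theorem pot_energy (hQ : IsMarkov m Q) (he : IsIdem e) (hu : u = e + α • ((1 - e) * Q u)) :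
    m (u * (u - α • Q u)) = (1 - α) * m u := by
  have h1 : u * (u - α • Q u) = u - α • Q u := by
    conv_lhs => rw [pot_eq he hu]
    rw [← mul_assoc, mul_comm u e, pot_mul he hu]
    exact (pot_eq he hu).symm
  rw [h1, map_sub, map_smul, hQ.apply_one, smul_eq_mul]
  ring

/-- the variational principle -/
theorem pot_le_energy (hm : IsState m) (hQ : IsMarkov m Q) (he : IsIdem e) (hα0 : 0 < α)
    (hα1 : α < 1) (hu : u = e + α • ((1 - e) * Q u)) {f : C(X, ℝ)} (hf : e * f = e) :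
    (1 - α) * m u ≤ m (f * (f - α • Q f)) := by
  rw [← pot_energy hQ he hu]
  obtain ⟨g, hg⟩ : ∃ g, f = u + g := ⟨f - u, by abel⟩
  have hge : e * g = 0 := by
    have h0 : g = f - u := by rw [hg]; abel
    rw [h0, mul_sub, hf, pot_mul he hu, sub_self]
  have h1 : m (g * (u - α • Q u)) = 0 := by
    rw [pot_eq he hu, ← mul_assoc, mul_comm g e, hge, zero_mul, map_zero]
  have h2 : m (u * (g - α • Q g)) = m (g * (u - α • Q u)) := by
    rw [mul_sub, mul_sub, map_sub, map_sub, mul_smul_comm, mul_smul_comm, map_smul, map_smul,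
      hQ.symm u g, mul_comm u g, mul_comm (Q u) g]
  have h3 : 0 ≤ m (g * (g - α • Q g)) := by
    rw [mul_sub, map_sub, mul_smul_comm, map_smul, smul_eq_mul]
    have h4 := hQ.inner_le hm g
    have h5 := hm.pos _ (sq_nonneg' g)
    nlinarith
  have h4 : f * (f - α • Q f) = u * (u - α • Q u) + u * (g - α • Q g) + g * (u - α • Q u)
      + g * (g - α • Q g) := by
    rw [hg, map_add]
    ext x
    simp
    ring
  rw [h4, map_add, map_add, map_add, h2, h1]
  linarith

end Pot

end Pool.Agent.TH601.EX
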