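import Pool.Agent.TH601.EX.Defs

/-!
The exponential of a bounded operator on a Banach space, acting on vectors.
-/

open Filter Topology

namespace Pool.Agent.TH601.EX

section General

variable {E : Type*} [NormedAddCommGroup E] [NormedSpace ℝ E] [CompleteSpace E]

noncomputable def semiE (T : E →L[ℝ] E) (t : ℝ) : E →L[ℝ] E := NormedSpace.exp (t • T)

theorem semiE_hasSum (T : E →L[ℝ] E) (t : ℝ) (f : E) :
    HasSum (fun n : ℕ => (t ^ n / (n.factorial : ℝ)) • ((T ^ n) f)) (semiE T t f) := by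
  have h := NormedSpace.exp_series_hasSum_exp' (𝕂 := ℝ) (t • T)
  have h2 := (ContinuousLinearMap.apply ℝ E f).hasSum h
  have h3 : (ContinuousLinearMap.apply ℝ E f) (NormedSpace.exp (t • T)) = semiE T t f := rfl
  rw [h3] at h2
  convert h2 using 2 with n
  simp [smul_pow, smul_smul, div_eq_inv_mul]

theorem semiE_zero (T : E →L[ℝ] E) (f : E) : semiE T 0 f = f := by
  simp [semiE]

theorem semiE_add (T : E →L[ℝ] E) (s t : ℝ) (f : E) :
    semiE T (s + t) f = semiE T s (semiE T t f) := by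
  unfold semiE
  letI : NormedAlgebra ℚ (E →L[ℝ] E) := .restrictScalars ℚ ℝ _
  rw [add_smul, NormedSpace.exp_add_of_commute]
  · rfl
  · exact ((Commute.refl T).smul_left s).smul_right t

theorem semiE_shift (T : E →L[ℝ] E) (c t : ℝ) (f : E) :
    semiE T t f = Real.exp (-(t * c)) • semiE (T + c • 1) t f := by
  unfold semiE
  letI : NormedAlgebra ℚ (E →L[ℝ] E) := .restrictScalars ℚ ℝ _
  have h1 : t • T = (-(t * c)) • (1 : E →L[ℝ] E) + t • (T + c • 1) := by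
    rw [smul_add, smul_smul, neg_smul]
    abel
  have hcomm : Commute ((-(t * c)) • (1 : E →L[ℝ] E)) (t • (T + c • 1)) :=
    (Commute.one_left _).smul_left _
  conv_lhs => rw [h1]
  rw [NormedSpace.exp_add_of_commute hcomm]
  have h2 : NormedSpace.exp ((-(t * c)) • (1 : E →L[ℝ] E))
      = Real.exp (-(t * c)) • (1 : E →L[ℝ] E) := by
    have := NormedSpace.algebraMap_exp_comm (𝔸 := E →L[ℝ] E) (-(t * c) : ℝ)
    rw [Algebra.algebraMap_eq_smul_one, Algebra.algebraMap_eq_smul_one] at this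
    rw [← this, Real.exp_eq_exp_ℝ]
  rw [h2]
  simp

theorem semiE_expand (T : E →L[ℝ] E) {ε : ℝ} (hε : 0 < ε) :
    ∀ᶠ h in 𝓝[>] (0 : ℝ), ∀ f, ‖semiE T h f - f - h • T f‖ ≤ ε * h * ‖f‖ := by
  have h1 : HasDerivAt (fun u : ℝ => NormedSpace.exp (u • T))
      (NormedSpace.exp ((0 : ℝ) • T) * T) 0 := hasDerivAt_exp_smul_const T (0 : ℝ)
  rw [zero_smul, NormedSpace.exp_zero, one_mul] at h1
  have h2 := h1.isLittleO
  have h3 := h2.def hε
  have h4 := h3.filter_mono (nhdsWithin_le_nhds (s := Set.Ioi (0 : ℝ)))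
  filter_upwards [h4, self_mem_nhdsWithin] with h hh hpos f
  simp only [zero_smul, NormedSpace.exp_zero, sub_zero] at hh
  rw [Real.norm_of_nonneg (le_of_lt hpos)] at hh
  have h5 : semiE T h f - f - h • T f = (NormedSpace.exp (h • T) - 1 - h • T) f := by
    simp [semiE]
  rw [h5]
  exact (ContinuousLinearMap.le_opNorm _ _).trans
    (mul_le_mul_of_nonneg_right hh (norm_nonneg _))

theorem semiE_hasDerivAt (T : E →L[ℝ] E) (s : ℝ) (f : E) :
    HasDerivAt (fun u : ℝ => semiE T u f) (semiE T s (T f)) s := by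
  have h1 : HasDerivAt (fun u : ℝ => NormedSpace.exp (u • T))
      (NormedSpace.exp (s • T) * T) s := hasDerivAt_exp_smul_const T s
  have h2 := h1.clm_apply (hasDerivAt_const s f)
  simp only [map_zero, add_zero] at h2
  exact h2

end General

section Fn

variable {X : Type*} [TopologicalSpace X] [CompactSpace X]

/-- The semigroup `e^{tG}` of a bounded operator on `C(X, ℝ)`. -/
noncomputable def sg (G : C(X, ℝ) →L[ℝ] C(X, ℝ)) (t : ℝ) : C(X, ℝ) →L[ℝ] C(X, ℝ) := semiE G t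

theorem sg_hasSum (G : C(X, ℝ) →L[ℝ] C(X, ℝ)) (t : ℝ) (f : C(X, ℝ)) :
    HasSum (fun n : ℕ => (t ^ n / (n.factorial : ℝ)) • ((G ^ n) f)) (sg G t f) :=
  semiE_hasSum G t f

theorem sg_zero (G : C(X, ℝ) →L[ℝ] C(X, ℝ)) (f : C(X, ℝ)) : sg G 0 f = f := semiE_zero G f

theorem sg_add (G : C(X, ℝ) →L[ℝ] C(X, ℝ)) (s t : ℝ) (f : C(X, ℝ)) :
    sg G (s + t) f = sg G s (sg G t f) := semiE_add G s t f

/-- positivity of the semigroup for an operator which is positive after a shift -/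
theorem sg_pos (G : C(X, ℝ) →L[ℝ] C(X, ℝ)) {c : ℝ} (hc : ∀ f, 0 ≤ f → 0 ≤ G f + c • f)
    {t : ℝ} (ht : 0 ≤ t) (f : C(X, ℝ)) (hf : 0 ≤ f) : 0 ≤ sg G t f := by
  have h1 : sg G t f = Real.exp (-(t * c)) •
      semiE (E := C(X, ℝ)) (G + c • ContinuousLinearMap.id ℝ C(X, ℝ)) t f := semiE_shift G c t f
  rw [h1]
  set B : C(X, ℝ) →L[ℝ] C(X, ℝ) := G + c • ContinuousLinearMap.id ℝ C(X, ℝ) with hB
  have hpow : ∀ n : ℕ, 0 ≤ (B ^ n) f := by
    intro n
    induction n with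
    | zero => exact hf
    | succ n ih =>
      rw [pow_succ']
      exact hc _ ih
  have h2 : HasSum (fun n : ℕ => (t ^ n / (n.factorial : ℝ)) • ((B ^ n) f)) (semiE B t f) :=
    semiE_hasSum B t f
  have h3 : ∀ x, 0 ≤ (semiE B t f : C(X, ℝ)) x := by
    intro x
    have h4 : HasSum (fun n : ℕ => ((t ^ n / (n.factorial : ℝ)) • ((B ^ n) f)) x)
        ((semiE B t f : C(X, ℝ)) x) := (ContinuousMap.evalCLM ℝ x).hasSum h2
    refine h4.nonneg fun n => ?_
    have h5 : 0 ≤ ((B ^ n) f) x := hpow n x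
    have h6 : ((t ^ n / (n.factorial : ℝ)) • ((B ^ n) f)) x
        = (t ^ n / (n.factorial : ℝ)) * ((B ^ n) f) x := rfl
    rw [h6]
    positivity
  intro x
  exact mul_nonneg (Real.exp_pos _).le (h3 x)

theorem sg_expand (G : C(X, ℝ) →L[ℝ] C(X, ℝ)) {ε : ℝ} (hε : 0 < ε) :
    ∀ᶠ h in 𝓝[>] (0 : ℝ), ∀ f, ‖sg G h f - f - h • G f‖ ≤ ε * h * ‖f‖ :=
  semiE_expand G hε

theorem sg_hasDerivAt (G : C(X, ℝ) →L[ℝ] C(X, ℝ)) (s : ℝ) (f : C(X, ℝ)) :
    HasDerivAt (fun u : ℝ => sg G u f) (sg G s (G f)) s :=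
  semiE_hasDerivAt G s f

end Fn

end Pool.Agent.TH601.EX
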